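import Pool.Agent.HPl.Targets

set_option autoImplicit false

namespace Pool.Agent.HPl

/-- exp grows faster than powers. -/
theorem p_ASY : T_ASY := by
  have h1 : Filter.Tendsto (fun l : ℝ => Real.exp ((1 / 14) * l) / l ^ (60 : ℝ)) Filter.atTop
      Filter.atTop := tendsto_exp_mul_div_rpow_atTop 60 (1 / 14) (by norm_num)
  obtain ⟨a, ha⟩ := Filter.eventually_atTop.1 (h1.eventually_ge_atTop 1)
  refine ⟨max a (10 ^ 40), le_max_right _ _, fun l hl => ?_⟩
  have h2 := ha l ((le_max_left _ _).trans hl)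
  have h3 : (0 : ℝ) < l := lt_of_lt_of_le (by norm_num) ((le_max_right _ _).trans hl)
  have h4 : l ^ (60 : ℝ) = l ^ 60 := by
    rw [← Real.rpow_natCast]
    norm_num
  rw [h4, le_div_iff₀ (by positivity), one_mul] at h2
  have h5 : (1 / 14) * l = l / 14 := by ring
  rwa [h5] at h2

end Pool.Agent.HPl
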