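import Mathlib
import Pool.Agent.HSh.Targets

set_option autoImplicit false

namespace Pool.Agent.HPl

open Finset Pool.Agent.HLow Pool.Agent.HSh

/-! Windows of arbitrary length `L` with centre `t : ℤ` in degree time. -/

section defs

variable {V : Type} [Fintype V] [DecidableEq V]

/-- the interval of degree time of `u` lies in `[t - L, t + L]` -/
def wn (a : V → V → ℝ) (pos : V → ℕ) (L t : ℤ) (u : V) : Prop :=
  t ≤ th a pos u + L ∧ (th a pos u : ℤ) + dn a u ≤ t + L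

open Classical in
/-- the signs: `1` before `t` and `-1` after `t`, in the window -/
noncomputable def es (a : V → V → ℝ) (pos : V → ℕ) (L t : ℤ) (u : V) : ℝ :=
  if wn a pos L t u then (if (th a pos u : ℤ) < t then 1 else -1) else 0

/-- the function `g = (A + diag D0) es` -/
noncomputable def gs (a : V → V → ℝ) (pos : V → ℕ) (D0 : V → ℝ) (L t : ℤ) (u : V) : ℝ :=
  ∑ x, sy a u x * es a pos L t x + D0 u * es a pos L t u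

/-- the value of the quadratic form at `es` -/
noncomputable def cs (a : V → V → ℝ) (pos : V → ℕ) (D0 : V → ℝ) (L t : ℤ) : ℝ :=
  ∑ u, D0 u * es a pos L t u ^ 2
    + ∑ u, ∑ v, sy a u v * (es a pos L t u * es a pos L t v)

open Classical in
/-- good vertices of degree at least `2 ^ k` in the window -/
noncomputable def Us (a : V → V → ℝ) (pos : V → ℕ) (D0 : V → ℝ) (β G m : ℝ) (h k : ℕ)
    (L t : ℤ) : Finset V :=
  (Gd a pos D0 β G m h).filter (fun u => 2 ^ k ≤ dn a u ∧ wn a pos L t u)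

/-- the commutator sum of the window -/
noncomputable def Ls (a : V → V → ℝ) (pos : V → ℕ) (D0 : V → ℝ) (β G m : ℝ) (h k : ℕ)
    (L t : ℤ) : ℝ :=
  ∑ u ∈ Us a pos D0 β G m h k L t, ∑ w ∈ Us a pos D0 β G m h k L t,
    sy a u w / ((dn a u : ℝ) ^ 2 * (dn a w : ℝ) ^ 2) * (gs a pos D0 L t u - gs a pos D0 L t w) ^ 2

/-- number of the neighbours of `u` before time `t` -/
noncomputable def Ph (a : V → V → ℝ) (pos : V → ℕ) (t : ℤ) (u : V) : ℝ :=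
  ∑ x, if (th a pos x : ℤ) < t then sy a u x else 0

/-- difference of the numbers of neighbours before `t`, without the constant part -/
noncomputable def Hf (a : V → V → ℝ) (pos : V → ℕ) (z w : V) (t : ℤ) : ℝ :=
  Ph a pos t z - Ph a pos t w - ((dn a z : ℝ) - dn a w) / 2

open Classical in
/-- good arcs of length about `2 ^ i` whose smaller degree is about `2 ^ k` -/
noncomputable def Ek (a : V → V → ℝ) (pos : V → ℕ) (D0 : V → ℝ) (β G m : ℝ) (i h k : ℕ) :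
    Finset (V × V) :=
  (GA a pos D0 β G m i h).filter (fun e => 2 ^ k ≤ min (dn a e.1) (dn a e.2) ∧
      min (dn a e.1) (dn a e.2) < 2 ^ (k + 1))

/-- offsets of the times well inside of an arc -/
noncomputable def Jn (a : V → V → ℝ) (pos : V → ℕ) (i : ℕ) (z w : V) : Finset ℤ :=
  (Ico (0 : ℤ) (2 * 2 ^ i)).filter (fun s => 2 ^ i ≤ 8 * s ∧ 8 * s + 2 ^ i ≤ 8 * (ln a pos z w : ℤ))

end defs

/-- shells -/
noncomputable def Sh (J : Finset ℤ) (ρ A : ℕ) (r : ℕ) : Finset ℤ :=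
  if r = 0 then J else
    Ico ((ρ : ℤ) * A ^ r) (2 * (ρ * A ^ r)) ∪ Ioc (-(2 * ((ρ : ℤ) * A ^ r))) (-((ρ : ℤ) * A ^ r))

/-- upper bound of the commutator sum of one window -/
def T_PTS : Prop := ∀ (V : Type) [Fintype V] [DecidableEq V] (a : V → V → ℝ) (pos : V → ℕ)
  (D0 : V → ℝ) (β G m ν : ℝ) (K i h k : ℕ) (L t : ℤ), Dat a pos D0 G m → Par β G m K i h →
  0 < ν → 1 ≤ L →
  Ls a pos D0 β G m h k L t ≤ 9216 * ka β G m ^ 3 * L / ν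
    + cs a pos D0 L t * (L * (80 * ν / (2 ^ k) ^ 4 + 64 * ka β G m ^ 3 / (2 ^ k) ^ 2))

/-- the sum of `cs` over all times -/
def T_CTS : Prop := ∀ (V : Type) [Fintype V] [DecidableEq V] (a : V → V → ℝ) (pos : V → ℕ)
  (D0 : V → ℝ) (β G m : ℝ) (K i h : ℕ) (L X Y : ℤ), Dat a pos D0 G m → Par β G m K i h →
  1 ≤ L → ∑ t ∈ Icc X Y, cs a pos D0 L t ≤ 6 * m * L

/-- upper bound of the sum of the commutator sums over all times -/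
def T_SUM : Prop := ∀ (V : Type) [Fintype V] [DecidableEq V] (a : V → V → ℝ) (pos : V → ℕ)
  (D0 : V → ℝ) (β G m : ℝ) (K i h k : ℕ) (L : ℤ), Dat a pos D0 G m → Par β G m K i h →
  1 ≤ L → (L : ℝ) ≤ m → ka β G m ^ 3 * L ≤ 1 →
  ∑ t ∈ Icc (-L) (((∑ u, dn a u : ℕ) : ℤ) + L), Ls a pos D0 β G m h k L t
    ≤ 50000 * m * L * Real.sqrt (ka β G m ^ 3 * L) / (2 ^ k) ^ 2

/-- `gs` is the second difference of `Ph` -/
def T_PRF : Prop := ∀ (V : Type) [Fintype V] [DecidableEq V] (a : V → V → ℝ) (pos : V → ℕ)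
  (D0 : V → ℝ) (L t : ℤ) (u : V), Dg a pos → (∀ u, 1 ≤ dn a u) → (∀ u, 0 ≤ D0 u) → 0 ≤ L →
  |gs a pos D0 L t u - (2 * Ph a pos t u - Ph a pos (t - L) u - Ph a pos (t + L) u)| ≤ 1 + D0 u

/-- for a good arc: bounds of the function `Hf` -/
def T_LOW : Prop := ∀ (V : Type) [Fintype V] [DecidableEq V] (a : V → V → ℝ) (pos : V → ℕ)
  (D0 : V → ℝ) (β G m : ℝ) (K i h : ℕ) (z w : V), Dat a pos D0 G m → Par β G m K i h →
  (z, w) ∈ GA a pos D0 β G m i h →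
  (∀ t : ℤ, |Hf a pos z w t| ≤ 2 * ((dn a z : ℝ) + dn a w)) ∧
  (∀ t : ℤ, 8 * (th a pos z : ℤ) + 2 ^ i ≤ 8 * t →
    8 * t + 2 ^ i ≤ 8 * ((th a pos w : ℤ) + dn a w) →
    3 / 4 * de β * ((dn a z : ℝ) + dn a w) ≤ Hf a pos z w t) ∧
  (∀ t1 t2 : ℤ, t1 + 2 ^ (h + 2) ≤ th a pos z → (th a pos z : ℤ) + 2 ^ (h + 2) ≤ t2 →
    |Hf a pos z w t1 + Hf a pos z w t2| ≤ 1 / 2 * de β * ((dn a z : ℝ) + dn a w))

/-- the chain of shells -/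
def T_CHN : Prop := ∀ (H : ℤ → ℝ) (X F : ℝ) (A R ρ : ℕ) (J : Finset ℤ),
  (∀ s, |H s| ≤ 2 * X) → 4 ≤ A → 1 ≤ R → 1 ≤ ρ → J.Nonempty → (∀ s ∈ J, |s| ≤ 2 * ρ) →
  (∀ s L : ℤ, |s| ≤ 2 * (ρ * A ^ (R - 1)) → (ρ : ℤ) * A ^ R ≤ L →
    |H (s - L) + H (s + L)| ≤ 2 * F) →
  (∑ s ∈ J, |H s|) / J.card ≤ F + 4 * R * X / A
    + 1 / 2 * ∑ r ∈ range R,
      (∑ s ∈ Sh J ρ A r, ∑ L ∈ Ico ((ρ : ℤ) * A ^ (r + 1)) (2 * (ρ * A ^ (r + 1))),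
        |2 * H s - H (s - L) - H (s + L)|) / (((Sh J ρ A r).card : ℝ) * (ρ * A ^ (r + 1)))

/-- the sum over the good arcs for one window length -/
def T_AVG : Prop := ∀ (V : Type) [Fintype V] [DecidableEq V] (a : V → V → ℝ) (pos : V → ℕ)
  (D0 : V → ℝ) (β G m : ℝ) (K i h k : ℕ) (ρ L : ℤ) (T : V × V → Finset ℤ),
  Dat a pos D0 G m → Par β G m K i h → 2 ^ i ≤ ρ → 4 * ρ ≤ L → (L : ℝ) ≤ m →
  ka β G m ^ 3 * L ≤ 1 → (∀ e, ∀ s ∈ T e, |s| ≤ 2 * ρ) →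
  ∑ e ∈ Ek a pos D0 β G m i h k, ∑ s ∈ T e,
      ((gs a pos D0 L (th a pos e.1 + s) e.1 - gs a pos D0 L (th a pos e.1 + s) e.2)
        / ((dn a e.1 : ℝ) + dn a e.2)) ^ 2
    ≤ 200000 * m * L * Real.sqrt (ka β G m ^ 3 * L)

/-- the sum over the good arcs of the error of one shell -/
def T_ERR : Prop := ∀ (V : Type) [Fintype V] [DecidableEq V] (a : V → V → ℝ) (pos : V → ℕ)
  (D0 : V → ℝ) (β G m : ℝ) (K i h k A R r : ℕ),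
  Dat a pos D0 G m → Par β G m K i h → 4 ≤ A → r < R → 2 * 2 ^ i * (A : ℝ) ^ R ≤ m →
  ka β G m ^ 3 * (2 * 2 ^ i * (A : ℝ) ^ R) ≤ 1 →
  ∑ e ∈ Ek a pos D0 β G m i h k,
    (∑ s ∈ Sh (Jn a pos i e.1 e.2) (2 ^ i) A r,
      ∑ L ∈ Ico (((2 ^ i : ℕ) : ℤ) * A ^ (r + 1)) (2 * (((2 ^ i : ℕ) : ℤ) * A ^ (r + 1))),
        |2 * Hf a pos e.1 e.2 (th a pos e.1 + s) - Hf a pos e.1 e.2 (th a pos e.1 + (s - L))
          - Hf a pos e.1 e.2 (th a pos e.1 + (s + L))|)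
      / (((Sh (Jn a pos i e.1 e.2) (2 ^ i) A r).card : ℝ) * (((2 ^ i : ℕ) : ℝ) * A ^ (r + 1)))
      / ((dn a e.1 : ℝ) + dn a e.2)
    ≤ Real.sqrt (533334 * (Ek a pos D0 β G m i h k).card * m * A
        * Real.sqrt (ka β G m ^ 3 * (2 * 2 ^ i * (A : ℝ) ^ R)))
      + (Ek a pos D0 β G m i h k).card * (1 / dlo β G m + ka β G m)

/-- the conclusion for one scale -/
def T_KEYP : Prop := ∀ (V : Type) [Fintype V] [DecidableEq V] (a : V → V → ℝ) (pos : V → ℕ)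
  (D0 : V → ℝ) (β G m : ℝ) (K i h A R : ℕ), Dat a pos D0 G m → Par β G m K i h →
  (∀ u, dn a u < 2 ^ K) → Ta a pos (2 ^ (h + 1)) ≤ de β * (β * m) / 64 →
  β * m ≤ Ta a pos (2 ^ i) - Ta a pos (2 ^ (i + 1)) → 4 ≤ A → 1 ≤ R →
  2 ^ (h + 3) ≤ 2 ^ i * A ^ R → 2 * 2 ^ i * (A : ℝ) ^ R ≤ m →
  ka β G m ^ 3 * (2 * 2 ^ i * (A : ℝ) ^ R) ≤ 1 →
  de β ≤ 8 * R / A + R * (Real.sqrt (1066668 * K * A
      * Real.sqrt (ka β G m ^ 3 * (2 * 2 ^ i * (A : ℝ) ^ R)) / β) + 1 / dlo β G m + ka β G m)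

/-- choice of the parameters: asymptotics -/
def T_ASY : Prop := ∃ l0 : ℝ, 10 ^ 40 ≤ l0 ∧ ∀ l : ℝ, l0 ≤ l → l ^ 60 ≤ Real.exp (l / 14)

/-- choice of the parameters -/
def T_NUMP : Prop := ∃ m0 : ℝ, 10 ≤ m0 ∧ ∀ G m : ℝ, m0 ≤ m → 1 ≤ G →
  G ≤ m ^ (5 / 7 : ℝ) / Real.log m ^ 12 →
  ∃ h K A : ℕ, 2 * m < 2 ^ K ∧ 4 ≤ A ∧ ((h : ℝ) + 1) ≤ 2 * Real.log m ∧
    4 * Real.sqrt (G * m) ≤ 2 ^ (h + 1) * ((1 / (4 * Real.log m)) ^ 3 / (64 * 10 ^ 7)) ∧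
    ∀ i ≤ h, Par (1 / (4 * Real.log m)) G m K i h ∧ ∃ R : ℕ, 1 ≤ R ∧
      2 ^ (h + 3) ≤ 2 ^ i * A ^ R ∧ 2 * 2 ^ i * (A : ℝ) ^ R ≤ m ∧
      ka (1 / (4 * Real.log m)) G m ^ 3 * (2 * 2 ^ i * (A : ℝ) ^ R) ≤ 1 ∧
      8 * R / A + R * (Real.sqrt (1066668 * K * A
        * Real.sqrt (ka (1 / (4 * Real.log m)) G m ^ 3 * (2 * 2 ^ i * (A : ℝ) ^ R))
          / (1 / (4 * Real.log m))) + 1 / dlo (1 / (4 * Real.log m)) G m
          + ka (1 / (4 * Real.log m)) G m) < de (1 / (4 * Real.log m))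

/-- the conclusion for one digraph with small surplus -/
def T_FINP : Prop := ∃ m0 : ℝ, 2 ≤ m0 ∧ ∀ (V : Type) [Fintype V] [DecidableEq V]
  (a : V → V → ℝ) (G m : ℝ), Dicut.WData a G → (∀ u v, a u v = 0 ∨ a u v = 1) →
  ∑ u, dp a u = m → m0 ≤ m → m ^ (5 / 7 : ℝ) / Real.log m ^ 12 < G

def T_MAINP : Prop := ∃ c : ℝ, 0 < c ∧ ∀ m : ℕ, 1 ≤ m →
  (m : ℝ) / 4 + c * (m : ℝ) ^ (5 / 7 : ℝ) / (1 + Real.log m) ^ 12 ≤ (Dicut.h m : ℝ)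

end Pool.Agent.HPl
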