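import Mathlib
import Pool.Agent.HPl.Targets

set_option autoImplicit false

/-!
# The sum over the good arcs for one window length
-/

namespace Pool.Agent.HPl

open Finset Pool.Agent.HLow Pool.Agent.HSh

/-- the numerical inequality for one arc -/
lemma AVG_num {x y g P : ℝ} (hx : 0 < x) (hy : 0 < y) (hP : 0 < P) (h : min x y ≤ 2 * P) :
    (g / (x + y)) ^ 2 ≤ 4 * P ^ 2 * (1 / (x ^ 2 * y ^ 2) * g ^ 2) := by
  have h1 : x * y ≤ 2 * P * (x + y) := by
    rcases le_total x y with hxy | hxy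
    · rw [min_eq_left hxy] at h
      calc x * y ≤ 2 * P * y := mul_le_mul_of_nonneg_right h hy.le
        _ ≤ 2 * P * (x + y) := mul_le_mul_of_nonneg_left (by linarith) (by positivity)
    · rw [min_eq_right hxy] at h
      calc x * y = y * x := mul_comm _ _
        _ ≤ 2 * P * x := mul_le_mul_of_nonneg_right h hx.le
        _ ≤ 2 * P * (x + y) := mul_le_mul_of_nonneg_left (by linarith) (by positivity)
  have h2 : (x * y) ^ 2 ≤ (2 * P * (x + y)) ^ 2 := pow_le_pow_left₀ (by positivity) h1 2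
  have h3 : 4 * P ^ 2 * (1 / (x ^ 2 * y ^ 2) * g ^ 2) = 4 * P ^ 2 * g ^ 2 / (x * y) ^ 2 := by
    field_simp
  rw [h3, div_pow, div_le_div_iff₀ (by positivity) (by positivity)]
  have h4 : 0 ≤ g ^ 2 := sq_nonneg g
  have h5 : g ^ 2 * (x * y) ^ 2 ≤ g ^ 2 * (2 * P * (x + y)) ^ 2 :=
    mul_le_mul_of_nonneg_left h2 h4
  linarith [h5, show g ^ 2 * (2 * P * (x + y)) ^ 2 = 4 * P ^ 2 * g ^ 2 * (x + y) ^ 2 by ring]

theorem p_AVG (h1 : T_SUM) : T_AVG := by
  classical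
  intro V _ _ a pos D0 β G m K i h k ρ L T hDat hPar hρ hL hLm hka hT
  have h2i : (1 : ℤ) ≤ 2 ^ i := one_le_pow₀ (by norm_num)
  have hL1 : 1 ≤ L := by linarith
  set N : ℤ := ((∑ u, dn a u : ℕ) : ℤ) with hN
  set W : (Σ _ : ℤ, V × V) → ℝ := fun x =>
    sy a x.2.1 x.2.2 / ((dn a x.2.1 : ℝ) ^ 2 * (dn a x.2.2 : ℝ) ^ 2) *
      (gs a pos D0 L x.1 x.2.1 - gs a pos D0 L x.1 x.2.2) ^ 2 with hW
  have hW0 : ∀ x, 0 ≤ W x := by
    intro x
    have : 0 ≤ sy a x.2.1 x.2.2 := hDat.dg.adj.nonneg _ _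
    simp only [hW]
    positivity
  set U : ℤ → Finset V := fun t => Us a pos D0 β G m h k L t with hU
  have hsum : ∑ x ∈ (Icc (-L) (N + L)).sigma (fun t => U t ×ˢ U t), W x =
      ∑ t ∈ Icc (-L) (N + L), Ls a pos D0 β G m h k L t := by
    rw [sum_sigma]
    refine sum_congr rfl fun t _ => ?_
    rw [sum_product]
    rfl
  set φ : (Σ _ : V × V, ℤ) → (Σ _ : ℤ, V × V) := fun x => ⟨th a pos x.1.1 + x.2, x.1⟩ with hφ
  have hinj : Function.Injective φ := by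
    rintro ⟨e, s⟩ ⟨e', s'⟩ he
    simp only [hφ, Sigma.mk.injEq, heq_eq_eq] at he
    obtain ⟨h3, h4⟩ := he
    subst h4
    have : s = s' := by linarith
    rw [this]
  -- facts about the arcs
  have harc : ∀ e ∈ Ek a pos D0 β G m i h k, a e.1 e.2 ≠ 0 ∧ pos e.1 < pos e.2 ∧
      ln a pos e.1 e.2 < 2 ^ (i + 1) ∧ e.1 ∈ Gd a pos D0 β G m h ∧ e.2 ∈ Gd a pos D0 β G m h ∧
      16 * dn a e.1 ≤ 2 ^ i ∧ 16 * dn a e.2 ≤ 2 ^ i ∧
      2 ^ k ≤ min (dn a e.1) (dn a e.2) ∧ min (dn a e.1) (dn a e.2) < 2 ^ (k + 1) := by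
    intro e he
    unfold Ek at he
    rw [mem_filter] at he
    obtain ⟨he1, he2, he3⟩ := he
    unfold GA at he1
    rw [mem_filter] at he1
    obtain ⟨-, g1, -, g3, g4, g5, g6, g7, -, -⟩ := he1
    exact ⟨g1, hDat.dg.lt _ _ g1, g3, g4, g5, g6, g7, he2, he3⟩
  have hsub : ((Ek a pos D0 β G m i h k).sigma T).image φ ⊆
      (Icc (-L) (N + L)).sigma (fun t => U t ×ˢ U t) := by
    intro y hy
    rw [mem_image] at hy
    obtain ⟨⟨e, s⟩, hx, rfl⟩ := hy
    rw [mem_sigma] at hx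
    obtain ⟨he, hs⟩ := hx
    obtain ⟨g1, g2, g3, g4, g5, g6, g7, g8, g9⟩ := harc e he
    have hs2 := abs_le.1 (hT e s hs)
    have k1 : (dn a e.1 : ℤ) ≤ ρ := by
      have : (16 * (dn a e.1 : ℤ)) ≤ 2 ^ i := by exact_mod_cast g6
      have h0 : (0 : ℤ) ≤ dn a e.1 := Int.natCast_nonneg _
      linarith
    have k2 : (dn a e.2 : ℤ) ≤ ρ := by
      have : (16 * (dn a e.2 : ℤ)) ≤ 2 ^ i := by exact_mod_cast g7
      have h0 : (0 : ℤ) ≤ dn a e.2 := Int.natCast_nonneg _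
      linarith
    have k3 : ((th a pos e.1 : ℤ)) + dn a e.1 ≤ th a pos e.2 := by
      exact_mod_cast th_add (a := a) g2
    have k4 : ((th a pos e.1 : ℤ)) + ln a pos e.1 e.2 = th a pos e.2 + dn a e.2 := by
      exact_mod_cast ln_add (a := a) g2
    have k5 : (ln a pos e.1 e.2 : ℤ) < 2 * ρ := by
      have : (ln a pos e.1 e.2 : ℤ) < 2 ^ (i + 1) := by exact_mod_cast g3
      rw [pow_succ] at this
      linarith
    have k6 : (0 : ℤ) ≤ dn a e.1 := Int.natCast_nonneg _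
    have k7 : (0 : ℤ) ≤ th a pos e.1 := Int.natCast_nonneg _
    have k8 : (th a pos e.1 : ℤ) ≤ N := by
      rw [hN]
      have : th a pos e.1 ≤ ∑ u, dn a u := by
        unfold th
        exact sum_le_sum_of_subset (filter_subset _ _)
      exact_mod_cast this
    have u1 : e.1 ∈ U (th a pos e.1 + s) := by
      simp only [hU, Us, mem_filter]
      refine ⟨g4, g8.trans (min_le_left _ _), ?_, ?_⟩ <;> linarith
    have u2 : e.2 ∈ U (th a pos e.1 + s) := by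
      simp only [hU, Us, mem_filter]
      refine ⟨g5, g8.trans (min_le_right _ _), ?_, ?_⟩ <;> linarith
    rw [mem_sigma]
    refine ⟨?_, mem_product.2 ⟨u1, u2⟩⟩
    rw [mem_Icc]
    constructor
    · change -L ≤ (th a pos e.1 : ℤ) + s
      linarith
    · change (th a pos e.1 : ℤ) + s ≤ N + L
      linarith
  have hterm : ∀ x ∈ (Ek a pos D0 β G m i h k).sigma T,
      ((gs a pos D0 L (th a pos x.1.1 + x.2) x.1.1 - gs a pos D0 L (th a pos x.1.1 + x.2) x.1.2)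
        / ((dn a x.1.1 : ℝ) + dn a x.1.2)) ^ 2 ≤ 4 * ((2 : ℝ) ^ k) ^ 2 * W (φ x) := by
    rintro ⟨e, s⟩ hx
    rw [mem_sigma] at hx
    obtain ⟨he, hs⟩ := hx
    obtain ⟨g1, g2, g3, g4, g5, g6, g7, g8, g9⟩ := harc e he
    have p1 : (0 : ℝ) < dn a e.1 := by
      have := hDat.iso e.1
      exact_mod_cast this
    have p2 : (0 : ℝ) < dn a e.2 := by
      have := hDat.iso e.2
      exact_mod_cast this
    have hsy : sy a e.1 e.2 = 1 := by
      unfold sy
      have e1 : a e.1 e.2 = 1 := (hDat.dg.zo _ _).resolve_left g1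
      have e2 : a e.2 e.1 = 0 := by
        by_contra hne
        have := hDat.dg.lt _ _ hne
        omega
      rw [e1, e2, add_zero]
    have hmin : min (dn a e.1 : ℝ) (dn a e.2) ≤ 2 * (2 : ℝ) ^ k := by
      have h3 : (min (dn a e.1) (dn a e.2) : ℕ) ≤ 2 * 2 ^ k := by
        rw [pow_succ] at g9
        omega
      have h4 : ((min (dn a e.1) (dn a e.2) : ℕ) : ℝ) ≤ 2 * 2 ^ k := by exact_mod_cast h3
      rwa [Nat.cast_min] at h4
    have h5 := AVG_num (g := gs a pos D0 L (th a pos e.1 + s) e.1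
      - gs a pos D0 L (th a pos e.1 + s) e.2) p1 p2 (by positivity : (0 : ℝ) < 2 ^ k) hmin
    simp only [hW, hφ, hsy]
    exact h5
  have hmain := h1 V a pos D0 β G m K i h k L hDat hPar hL1 hLm hka
  have hpk : (0 : ℝ) < (2 ^ k) ^ 2 := by positivity
  calc ∑ e ∈ Ek a pos D0 β G m i h k, ∑ s ∈ T e,
      ((gs a pos D0 L (th a pos e.1 + s) e.1 - gs a pos D0 L (th a pos e.1 + s) e.2)
        / ((dn a e.1 : ℝ) + dn a e.2)) ^ 2
      = ∑ x ∈ (Ek a pos D0 β G m i h k).sigma T,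
        ((gs a pos D0 L (th a pos x.1.1 + x.2) x.1.1
          - gs a pos D0 L (th a pos x.1.1 + x.2) x.1.2)
          / ((dn a x.1.1 : ℝ) + dn a x.1.2)) ^ 2 := by rw [sum_sigma]
    _ ≤ ∑ x ∈ (Ek a pos D0 β G m i h k).sigma T, 4 * ((2 : ℝ) ^ k) ^ 2 * W (φ x) :=
        sum_le_sum hterm
    _ = 4 * ((2 : ℝ) ^ k) ^ 2 * ∑ x ∈ ((Ek a pos D0 β G m i h k).sigma T).image φ, W x := by
        rw [sum_image (fun x _ y _ hxy => hinj hxy), mul_sum]
    _ ≤ 4 * ((2 : ℝ) ^ k) ^ 2 *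
        ∑ x ∈ (Icc (-L) (N + L)).sigma (fun t => U t ×ˢ U t), W x := by
        refine mul_le_mul_of_nonneg_left ?_ (by positivity)
        exact sum_le_sum_of_subset_of_nonneg hsub fun x _ _ => hW0 x
    _ ≤ 4 * ((2 : ℝ) ^ k) ^ 2 *
        (50000 * m * L * Real.sqrt (ka β G m ^ 3 * L) / (2 ^ k) ^ 2) := by
        refine mul_le_mul_of_nonneg_left ?_ (by positivity)
        rw [hsum]
        exact hmain
    _ = 200000 * m * L * Real.sqrt (ka β G m ^ 3 * L) := by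
        field_simp
        ring

end Pool.Agent.HPl
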