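import Mathlib
import Pool.Agent.HPl.Targets

set_option autoImplicit false

/-! Job CHN: averages over shells. -/

namespace Pool.Agent.HPl

open Finset

/-- translation of a sum over an interval -/
theorem CHN_shift (b : ℤ → ℝ) (B : ℝ) (h0 : ∀ t, 0 ≤ b t) (hB : ∀ t, b t ≤ B) (a c s : ℤ) :
    ∑ L ∈ Ico a c, b (s + L) ≤ ∑ t ∈ Ico a c, b t + |(s : ℝ)| * B := by
  classical
  have hB0 : 0 ≤ B := (h0 0).trans (hB 0)
  have e1 : ∑ L ∈ Ico a c, b (s + L) = ∑ t ∈ Ico (a + s) (c + s), b t := by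
    refine Finset.sum_nbij' (fun L => s + L) (fun t => t - s) ?_ ?_ ?_ ?_ ?_
    · intro L hL
      rw [mem_Ico] at hL ⊢
      omega
    · intro t ht
      rw [mem_Ico] at ht ⊢
      omega
    · intro L _
      ring
    · intro t _
      ring
    · intro L _
      rfl
  rw [e1]
  set D : Finset ℤ := Ico (a + s) a ∪ Ico c (c + s) with hD
  have hsub : Ico (a + s) (c + s) ⊆ Ico a c ∪ D := by
    intro t ht
    rw [mem_Ico] at ht
    rw [hD, mem_union, mem_union, mem_Ico, mem_Ico, mem_Ico]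
    omega
  have hcard : (D.card : ℝ) ≤ |(s : ℝ)| := by
    have h1 : (D.card : ℤ) ≤ |s| := by
      have h2 : D.card ≤ (Ico (a + s) a).card + (Ico c (c + s)).card := card_union_le _ _
      rw [Int.card_Ico, Int.card_Ico] at h2
      rcases abs_cases s with h3 | h3 <;> omega
    exact_mod_cast h1
  calc ∑ t ∈ Ico (a + s) (c + s), b t ≤ ∑ t ∈ Ico a c ∪ D, b t :=
        sum_le_sum_of_subset_of_nonneg hsub fun t _ _ => h0 t
    _ ≤ ∑ t ∈ Ico a c, b t + ∑ t ∈ D, b t := by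
        have h3 := sum_union_inter (s₁ := Ico a c) (s₂ := D) (f := b)
        have h4 : 0 ≤ ∑ t ∈ Ico a c ∩ D, b t := sum_nonneg fun t _ => h0 t
        linarith
    _ ≤ ∑ t ∈ Ico a c, b t + |(s : ℝ)| * B := by
        have h5 : ∑ t ∈ D, b t ≤ D.card * B := by
          have := sum_le_card_nsmul D b B fun t _ => hB t
          rwa [nsmul_eq_mul] at this
        have h6 := mul_le_mul_of_nonneg_right hcard hB0
        linarith

/-- reflection of a sum over an interval -/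
theorem CHN_refl (b : ℤ → ℝ) (a c : ℤ) :
    ∑ t ∈ Ico a c, b (-t) = ∑ t ∈ Ioc (-c) (-a), b t := by
  refine Finset.sum_nbij' (fun L => -L) (fun t => -t) ?_ ?_ ?_ ?_ ?_
  · intro L hL
    rw [mem_Ico] at hL
    rw [mem_Ioc]
    omega
  · intro t ht
    rw [mem_Ioc] at ht
    rw [mem_Ico]
    omega
  · intro L _
    ring
  · intro t _
    ring
  · intro L _
    rfl

section

variable {J : Finset ℤ} {ρ A : ℕ}

theorem CHN_pos (hA : 4 ≤ A) (hρ : 1 ≤ ρ) (r : ℕ) : (1 : ℤ) ≤ (ρ : ℤ) * A ^ r := by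
  have h1 : 1 ≤ ρ * A ^ r := Nat.one_le_iff_ne_zero.2 (Nat.mul_ne_zero (by omega)
    (pow_ne_zero _ (by omega)))
  exact_mod_cast h1

theorem CHN_bd (hA : 4 ≤ A) (hρ : 1 ≤ ρ) (hJ : ∀ s ∈ J, |s| ≤ 2 * (ρ : ℤ)) (r : ℕ) :
    ∀ s ∈ Sh J ρ A r, |s| ≤ 2 * ((ρ : ℤ) * A ^ r) := by
  intro s hs
  unfold Sh at hs
  split_ifs at hs with h
  · subst h
    rw [pow_zero, mul_one]
    exact hJ s hs
  · have h1 := CHN_pos hA hρ r
    rw [mem_union, mem_Ico, mem_Ioc] at hs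
    rw [abs_le]
    omega

theorem CHN_ne (hA : 4 ≤ A) (hρ : 1 ≤ ρ) (hJ : J.Nonempty) (r : ℕ) :
    (Sh J ρ A r).Nonempty := by
  unfold Sh
  split_ifs with h
  · exact hJ
  · have h1 := CHN_pos hA hρ r
    refine ⟨(ρ : ℤ) * A ^ r, ?_⟩
    rw [mem_union, mem_Ico]
    left
    omega

theorem CHN_sum (hA : 4 ≤ A) (hρ : 1 ≤ ρ) (r : ℕ) (hr : r ≠ 0) (b : ℤ → ℝ) :
    ∑ t ∈ Sh J ρ A r, b t = ∑ t ∈ Ico ((ρ : ℤ) * A ^ r) (2 * (ρ * A ^ r)), b t +
      ∑ t ∈ Ioc (-(2 * ((ρ : ℤ) * A ^ r))) (-((ρ : ℤ) * A ^ r)), b t := by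
  have h1 := CHN_pos hA hρ r
  unfold Sh
  rw [if_neg hr, sum_union]
  rw [Finset.disjoint_left]
  intro t ht ht'
  rw [mem_Ico] at ht
  rw [mem_Ioc] at ht'
  omega

theorem CHN_card (hA : 4 ≤ A) (hρ : 1 ≤ ρ) (r : ℕ) (hr : r ≠ 0) :
    ((Sh J ρ A r).card : ℝ) = 2 * ((ρ : ℝ) * A ^ r) := by
  have h := CHN_sum (J := J) hA hρ r hr (fun _ => (1 : ℝ))
  have h1 := CHN_pos hA hρ r
  simp only [sum_const, nsmul_eq_mul, mul_one, Int.card_Ico, Int.card_Ioc] at h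
  rw [h]
  have h2 : ((2 * ((ρ : ℤ) * A ^ r) - (ρ : ℤ) * A ^ r).toNat : ℤ) = (ρ : ℤ) * A ^ r := by omega
  have h3 : ((-((ρ : ℤ) * A ^ r) - -(2 * ((ρ : ℤ) * A ^ r))).toNat : ℤ) = (ρ : ℤ) * A ^ r := by
    omega
  have h2' : ((2 * ((ρ : ℤ) * A ^ r) - (ρ : ℤ) * A ^ r).toNat : ℝ) = (ρ : ℝ) * A ^ r := by
    exact_mod_cast h2
  have h3' : ((-((ρ : ℤ) * A ^ r) - -(2 * ((ρ : ℤ) * A ^ r))).toNat : ℝ) = (ρ : ℝ) * A ^ r := by
    exact_mod_cast h3
  rw [h2', h3']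
  ring

end

/-- averaging over the window lengths and over the shell -/
theorem CHN_avg (H : ℤ → ℝ) (S : Finset ℤ) (hS : S.Nonempty) (n : ℕ) (hn : 1 ≤ n) (Y : ℝ)
    (h : ∀ s ∈ S, ∑ L ∈ Ico (n : ℤ) (2 * n), (|H (s - L) + H (s + L)|) ≤ 2 * Y * n) :
    (∑ s ∈ S, |H s|) / S.card ≤ Y + 1 / 2 *
      ((∑ s ∈ S, ∑ L ∈ Ico (n : ℤ) (2 * n), |2 * H s - H (s - L) - H (s + L)|) /
        ((S.card : ℝ) * n)) := by
  have hc : (0 : ℝ) < S.card := by exact_mod_cast hS.card_pos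
  have hn0 : (0 : ℝ) < n := by exact_mod_cast hn
  have hcard : ((Ico (n : ℤ) (2 * n)).card : ℝ) = n := by
    rw [Int.card_Ico]
    have : ((2 * (n : ℤ) - n).toNat : ℤ) = n := by omega
    exact_mod_cast this
  have key : ∀ s ∈ S, 2 * |H s| * n ≤
      ∑ L ∈ Ico (n : ℤ) (2 * n), |2 * H s - H (s - L) - H (s + L)| + 2 * Y * n := by
    intro s hs
    have h1 : 2 * |H s| * n = ∑ L ∈ Ico (n : ℤ) (2 * n), 2 * |H s| := by
      rw [sum_const, nsmul_eq_mul, hcard]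
      ring
    rw [h1]
    refine le_trans (sum_le_sum (g := fun L => |2 * H s - H (s - L) - H (s + L)| +
      |H (s - L) + H (s + L)|) ?_) ?_
    · intro L _
      have h2 := abs_add_le (2 * H s - H (s - L) - H (s + L)) (H (s - L) + H (s + L))
      have e : 2 * H s - H (s - L) - H (s + L) + (H (s - L) + H (s + L)) = 2 * H s := by ring
      rw [e, abs_mul, abs_of_pos (by norm_num : (0 : ℝ) < 2)] at h2
      exact h2
    · rw [sum_add_distrib]
      exact add_le_add le_rfl (h s hs)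
  have hsum := sum_le_sum key
  rw [← sum_mul, ← mul_sum, sum_add_distrib, sum_const, nsmul_eq_mul] at hsum
  rw [div_le_iff₀ hc]
  have e : (Y + 1 / 2 * ((∑ s ∈ S, ∑ L ∈ Ico (n : ℤ) (2 * n),
      |2 * H s - H (s - L) - H (s + L)|) / ((S.card : ℝ) * n))) * S.card =
      (∑ s ∈ S, ∑ L ∈ Ico (n : ℤ) (2 * n), |2 * H s - H (s - L) - H (s + L)| +
        S.card * (2 * Y * n)) / (2 * n) := by
    field_simp
    ring
  rw [e, le_div_iff₀ (by positivity)]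
  linarith

theorem p_CHN : T_CHN := by
  intro H X F A R ρ J hH hA hR hρ hJ hJb hF
  have hX : 0 ≤ X := by
    have := (abs_nonneg (H 0)).trans (hH 0)
    linarith
  have hA0 : (0 : ℝ) < A := by
    have : 0 < A := by omega
    exact_mod_cast this
  set e : ℕ → ℝ := fun r =>
    (∑ s ∈ Sh J ρ A r, ∑ L ∈ Ico ((ρ : ℤ) * A ^ (r + 1)) (2 * (ρ * A ^ (r + 1))),
        |2 * H s - H (s - L) - H (s + L)|) / (((Sh J ρ A r).card : ℝ) * (ρ * A ^ (r + 1))) with he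
  set q : ℕ → ℝ := fun r => (∑ s ∈ Sh J ρ A r, |H s|) / (Sh J ρ A r).card with hq
  have gen : ∀ (r : ℕ) (Y : ℝ), (∀ s ∈ Sh J ρ A r,
      ∑ L ∈ Ico ((ρ : ℤ) * A ^ (r + 1)) (2 * (ρ * A ^ (r + 1))), |H (s - L) + H (s + L)| ≤
        2 * Y * (ρ * A ^ (r + 1))) → q r ≤ Y + 1 / 2 * e r := by
    intro r Y hY
    have h1 : 1 ≤ ρ * A ^ (r + 1) := by
      have := CHN_pos hA hρ (r + 1)
      exact_mod_cast this
    have h2 := CHN_avg H (Sh J ρ A r) (CHN_ne hA hρ hJ r) (ρ * A ^ (r + 1)) h1 Y (by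
      push_cast
      exact hY)
    push_cast at h2
    exact h2
  -- the last shell
  have hlast : q (R - 1) ≤ F + 1 / 2 * e (R - 1) := by
    refine gen (R - 1) F fun s hs => ?_
    have hR1 : R - 1 + 1 = R := by omega
    rw [hR1]
    have h1 : ∀ L ∈ Ico ((ρ : ℤ) * A ^ R) (2 * (ρ * A ^ R)), |H (s - L) + H (s + L)| ≤ 2 * F := by
      intro L hL
      exact hF s L (CHN_bd hA hρ hJb (R - 1) s hs) (mem_Ico.1 hL).1
    have h2 := sum_le_card_nsmul _ _ _ h1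
    rw [nsmul_eq_mul, Int.card_Ico] at h2
    have h3 : ((2 * ((ρ : ℤ) * A ^ R) - (ρ : ℤ) * A ^ R).toNat : ℤ) = (ρ : ℤ) * A ^ R := by
      have := CHN_pos hA hρ R
      omega
    have h4 : ((2 * ((ρ : ℤ) * A ^ R) - (ρ : ℤ) * A ^ R).toNat : ℝ) = (ρ : ℝ) * A ^ R := by
      exact_mod_cast h3
    rw [h4] at h2
    linarith
  -- one step
  have hstep : ∀ r : ℕ, q r ≤ q (r + 1) + 4 * X / A + 1 / 2 * e r := by
    intro r
    refine gen r _ fun s hs => ?_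
    have hsb : |s| ≤ 2 * ((ρ : ℤ) * A ^ r) := CHN_bd hA hρ hJb r s hs
    have hsbR : (|s| : ℝ) ≤ 2 * ((ρ : ℝ) * A ^ r) := by exact_mod_cast hsb
    set n : ℤ := (ρ : ℤ) * A ^ (r + 1) with hn
    have hnR : (n : ℝ) = (ρ : ℝ) * A ^ (r + 1) := by
      rw [hn]
      push_cast
      ring
    have hpos : (0 : ℝ) < (ρ : ℝ) * A ^ (r + 1) := by
      have h1 := CHN_pos hA hρ (r + 1)
      have h2 : (1 : ℝ) ≤ (ρ : ℝ) * A ^ (r + 1) := by exact_mod_cast h1
      linarith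
    have hp := CHN_shift (fun t => |H t|) (2 * X) (fun t => abs_nonneg _) hH n (2 * n) s
    have hm := CHN_shift (fun t => |H (-t)|) (2 * X) (fun t => abs_nonneg _)
      (fun t => hH _) n (2 * n) (-s)
    rw [CHN_refl (fun t => |H t|)] at hm
    have e2 : ∑ L ∈ Ico n (2 * n), |H (-(-s + L))| = ∑ L ∈ Ico n (2 * n), |H (s - L)| := by
      refine sum_congr rfl fun L _ => ?_
      congr 2
      ring
    rw [e2, Int.cast_neg, abs_neg] at hm
    have hsh := CHN_sum (J := J) hA hρ (r + 1) (by omega) (fun t => |H t|)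
    rw [← hn] at hsh
    have hcard := CHN_card (J := J) hA hρ (r + 1) (by omega)
    have hqs : q (r + 1) * (2 * ((ρ : ℝ) * A ^ (r + 1))) = ∑ t ∈ Sh J ρ A (r + 1), |H t| := by
      rw [hq]
      simp only
      rw [hcard, div_mul_cancel₀ _ (by positivity)]
    have h5 : ∑ L ∈ Ico n (2 * n), |H (s - L) + H (s + L)| ≤
        ∑ L ∈ Ico n (2 * n), |H (s - L)| + ∑ L ∈ Ico n (2 * n), |H (s + L)| := by
      rw [← sum_add_distrib]
      exact sum_le_sum fun L _ => abs_add_le _ _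
    have h6 : ∑ L ∈ Ico n (2 * n), |H (s - L) + H (s + L)| ≤
        q (r + 1) * (2 * ((ρ : ℝ) * A ^ (r + 1))) + 2 * (|(s : ℝ)| * (2 * X)) := by
      rw [hqs, hsh]
      linarith
    refine h6.trans ?_
    have h7 : 2 * (|(s : ℝ)| * (2 * X)) ≤ 2 * (2 * ((ρ : ℝ) * A ^ r) * (2 * X)) := by
      have : |(s : ℝ)| * (2 * X) ≤ 2 * ((ρ : ℝ) * A ^ r) * (2 * X) :=
        mul_le_mul_of_nonneg_right hsbR (by positivity)
      linarith
    have h8 : 2 * (q (r + 1) + 4 * X / A) * ((ρ : ℝ) * A ^ (r + 1)) =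
        q (r + 1) * (2 * ((ρ : ℝ) * A ^ (r + 1))) + 2 * (2 * ((ρ : ℝ) * A ^ r) * (2 * X)) := by
      rw [pow_succ]
      field_simp
      ring
    rw [h8]
    linarith
  -- the chain
  have hchain : ∀ k : ℕ, q 0 ≤ q k + k * (4 * X / A) + 1 / 2 * ∑ r ∈ range k, e r := by
    intro k
    induction k with
    | zero => simp
    | succ k ih =>
      have h1 := hstep k
      rw [sum_range_succ]
      push_cast
      linarith
  have hfin := hchain (R - 1)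
  have hR1 : R = (R - 1) + 1 := by omega
  have hq0 : q 0 = (∑ s ∈ J, |H s|) / J.card := by
    rw [hq]
    simp [Sh]
  rw [← hq0]
  have hsum : ∑ r ∈ range R, e r = ∑ r ∈ range (R - 1), e r + e (R - 1) := by
    conv_lhs => rw [hR1]
    rw [sum_range_succ]
  have hRc : ((R - 1 : ℕ) : ℝ) ≤ R := by exact_mod_cast Nat.sub_le R 1
  have h9 : ((R - 1 : ℕ) : ℝ) * (4 * X / A) ≤ R * (4 * X / A) :=
    mul_le_mul_of_nonneg_right hRc (by positivity)
  have h10 : (4 : ℝ) * R * X / A = R * (4 * X / A) := by ring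
  rw [h10]
  change q 0 ≤ F + R * (4 * X / A) + 1 / 2 * ∑ r ∈ range R, e r
  rw [hsum]
  linarith

end Pool.Agent.HPl
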