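import Mathlib
import Pool.Agent.HPl.Targets

set_option autoImplicit false

namespace Pool.Agent.HPl

open Finset Pool.Agent.HLow Pool.Agent.HSh

open Classical in
lemma CTS_ep {V : Type} [Fintype V] [DecidableEq V] (a : V → V → ℝ) (pos : V → ℕ) (L t : ℤ)
    (u : V) : |es a pos L t u| ≤ if wn a pos L t u then 1 else 0 := by
  unfold es
  split_ifs <;> norm_num

open Classical in
lemma CTS_count {V : Type} [Fintype V] [DecidableEq V] (a : V → V → ℝ) (pos : V → ℕ) (L X Y : ℤ)
    (hL : 1 ≤ L) (u : V) (hu : 1 ≤ dn a u) :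
    ∑ t ∈ Icc X Y, (if wn a pos L t u then (1 : ℝ) else 0) ≤ 2 * L := by
  rw [← sum_filter, sum_const, nsmul_eq_mul, mul_one]
  have h1 : (Icc X Y).filter (fun t => wn a pos L t u)
      ⊆ Icc ((th a pos u : ℤ) + dn a u - L) (th a pos u + L) := by
    intro t ht
    rw [mem_filter] at ht
    have h2 := ht.2
    unfold wn at h2
    rw [mem_Icc]
    omega
  have h2 := card_le_card h1
  rw [Int.card_Icc] at h2
  have h3 : (((Icc X Y).filter (fun t => wn a pos L t u)).card : ℤ) ≤ 2 * L := by omega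
  have h4 : ((((Icc X Y).filter (fun t => wn a pos L t u)).card : ℤ) : ℝ) ≤ ((2 * L : ℤ) : ℝ) := by
    exact_mod_cast h3
  push_cast at h4
  exact h4

open Classical in
lemma CTS_le {V : Type} [Fintype V] [DecidableEq V] {a : V → V → ℝ} {pos : V → ℕ} {D0 : V → ℝ}
    {G m : ℝ} (hD : Dat a pos D0 G m) (L t : ℤ) :
    cs a pos D0 L t ≤ ∑ u, (D0 u + dn a u) * (if wn a pos L t u then (1 : ℝ) else 0) := by
  unfold cs
  rw [← sum_add_distrib]
  apply sum_le_sum
  intro u _
  have hu := CTS_ep a pos L t u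
  have h1 : ∀ v, |es a pos L t v| ≤ 1 := by
    intro v
    refine le_trans (CTS_ep a pos L t v) ?_
    split_ifs <;> norm_num
  have h2 : D0 u * es a pos L t u ^ 2 ≤ D0 u * (if wn a pos L t u then (1 : ℝ) else 0) := by
    apply mul_le_mul_of_nonneg_left _ (hD.d0 u)
    rw [← sq_abs]
    split_ifs at hu ⊢
    · exact pow_le_one₀ (abs_nonneg _) hu
    · have : |es a pos L t u| = 0 := le_antisymm hu (abs_nonneg _)
      rw [this]; norm_num
  have h3 : ∑ v, sy a u v * (es a pos L t u * es a pos L t v)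
      ≤ (dn a u : ℝ) * (if wn a pos L t u then (1 : ℝ) else 0) := by
    rw [dn_cast hD.dg, ← sy_deg, sum_mul]
    apply sum_le_sum
    intro v _
    apply mul_le_mul_of_nonneg_left _ (hD.dg.adj.nonneg u v)
    calc es a pos L t u * es a pos L t v ≤ |es a pos L t u * es a pos L t v| := le_abs_self _
      _ = |es a pos L t u| * |es a pos L t v| := abs_mul _ _
      _ ≤ |es a pos L t u| * 1 := mul_le_mul_of_nonneg_left (h1 v) (abs_nonneg _)
      _ ≤ _ := by rw [mul_one]; exact hu
  linarith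

theorem p_CTS : T_CTS := by
  intro V _ _ a pos D0 β G m K i h L X Y hD hP hL
  classical
  have hm : 0 < m := by linarith [hD.m1]
  have hβ := hP.b0
  have hR : R0 G m ≤ m := by
    have h1 := hP.kd
    unfold ka de at h1
    rw [div_le_iff₀ (by positivity)] at h1
    have h2 : β ^ 2 / 10 ^ 7 * (β * m) ≤ m := by
      have : β ^ 3 ≤ 1 := pow_le_one₀ hβ.le hP.b1
      have h' : β ^ 2 / 10 ^ 7 * (β * m) = β ^ 3 * m / 10 ^ 7 := by ring
      rw [h', div_le_iff₀ (by positivity)]
      nlinarith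
    have h3 : 0 ≤ R0 G m := by
      unfold R0
      have : 0 ≤ Real.log m := Real.log_nonneg hD.m1
      have := hD.gpos
      positivity
    linarith
  have hsum : ∑ u, (D0 u + dn a u) ≤ 3 * m := by
    rw [sum_add_distrib, hD.sumdn]
    have := hD.dsum
    unfold R0 at hR
    linarith
  calc ∑ t ∈ Icc X Y, cs a pos D0 L t
      ≤ ∑ t ∈ Icc X Y, ∑ u, (D0 u + dn a u) * (if wn a pos L t u then (1 : ℝ) else 0) :=
        sum_le_sum (fun t _ => CTS_le hD L t)
    _ = ∑ u, (D0 u + dn a u) * ∑ t ∈ Icc X Y, (if wn a pos L t u then (1 : ℝ) else 0) := by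
        rw [sum_comm]
        exact sum_congr rfl (fun u _ => by rw [mul_sum])
    _ ≤ ∑ u, (D0 u + dn a u) * (2 * (L : ℝ)) := by
        apply sum_le_sum
        intro u _
        apply mul_le_mul_of_nonneg_left (CTS_count a pos L X Y hL u (hD.iso u))
        have := hD.d0 u
        positivity
    _ = (∑ u, (D0 u + dn a u)) * (2 * (L : ℝ)) := by rw [sum_mul]
    _ ≤ 3 * m * (2 * (L : ℝ)) := mul_le_mul_of_nonneg_right hsum (by positivity)
    _ = 6 * m * L := by ring

end Pool.Agent.HPl
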