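import Pool.Agent.HPl.Targets

set_option autoImplicit false
set_option linter.unusedSectionVars false

namespace Pool.Agent.HPl

open Finset Pool.Agent.HLow Pool.Agent.HSh

lemma ERR_cs {ι : Type} (E : Finset ι) (T : ι → Finset ℤ) (LS : Finset ℤ)
    (F g : ι → ℤ → ℤ → ℝ) (h X : ι → ℝ) (P c κ B : ℝ)
    (hP : 0 < P) (hLS : (LS.card : ℝ) = P) (hc : 0 < c)
    (hT : ∀ e ∈ E, c ≤ ((T e).card : ℝ)) (hX : ∀ e ∈ E, 0 < X e)
    (hF : ∀ e ∈ E, ∀ s ∈ T e, ∀ L ∈ LS, |F e s L| ≤ |g e s L| + h e)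
    (hh : ∀ e ∈ E, h e / X e ≤ κ)
    (hB : ∀ L ∈ LS, ∑ e ∈ E, ∑ s ∈ T e, (g e s L / X e) ^ 2 ≤ B) :
    ∑ e ∈ E, (∑ s ∈ T e, ∑ L ∈ LS, |F e s L|) / (((T e).card : ℝ) * P) / X e
      ≤ Real.sqrt (E.card * (B / c)) + E.card * κ := by
  have hN : ∀ e ∈ E, 0 < ((T e).card : ℝ) * P := fun e he =>
    mul_pos (lt_of_lt_of_le hc (hT e he)) hP
  set u : ι → ℝ := fun e => (∑ s ∈ T e, ∑ L ∈ LS, |g e s L / X e|) / (((T e).card : ℝ) * P)
    with hu
  have hu0 : ∀ e ∈ E, 0 ≤ u e := fun e he =>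
    div_nonneg (sum_nonneg fun s _ => sum_nonneg fun L _ => abs_nonneg _) (hN e he).le
  -- termwise
  have h1 : ∀ e ∈ E, (∑ s ∈ T e, ∑ L ∈ LS, |F e s L|) / (((T e).card : ℝ) * P) / X e
      ≤ u e + κ := by
    intro e he
    have hXe := hX e he
    have hNe := hN e he
    have hs : ∑ s ∈ T e, ∑ L ∈ LS, |F e s L|
        ≤ ∑ s ∈ T e, ∑ L ∈ LS, |g e s L| + ((T e).card : ℝ) * P * h e := by
      calc ∑ s ∈ T e, ∑ L ∈ LS, |F e s L|
          ≤ ∑ s ∈ T e, ∑ L ∈ LS, (|g e s L| + h e) :=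
            sum_le_sum fun s hs => sum_le_sum fun L hL => hF e he s hs L hL
        _ = _ := by
            simp only [sum_add_distrib, sum_const, nsmul_eq_mul, hLS]
            ring
    have hg : ∑ s ∈ T e, ∑ L ∈ LS, |g e s L / X e| = (∑ s ∈ T e, ∑ L ∈ LS, |g e s L|) / X e := by
      rw [sum_div]
      refine sum_congr rfl fun s _ => ?_
      rw [sum_div]
      refine sum_congr rfl fun L _ => ?_
      rw [abs_div, abs_of_pos hXe]
    have h2 : (∑ s ∈ T e, ∑ L ∈ LS, |F e s L|) / (((T e).card : ℝ) * P) / X e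
        ≤ (∑ s ∈ T e, ∑ L ∈ LS, |g e s L| + ((T e).card : ℝ) * P * h e)
          / (((T e).card : ℝ) * P) / X e := by
      gcongr
    have h3 : (∑ s ∈ T e, ∑ L ∈ LS, |g e s L| + ((T e).card : ℝ) * P * h e)
          / (((T e).card : ℝ) * P) / X e = u e + h e / X e := by
      simp only [hu]
      rw [hg]
      have hTe : 0 < ((T e).card : ℝ) := lt_of_lt_of_le hc (hT e he)
      field_simp
    have h4 := hh e he
    linarith
  have h5 : ∀ e ∈ E, u e ^ 2 ≤ (1 / (c * P)) * ∑ s ∈ T e, ∑ L ∈ LS, (g e s L / X e) ^ 2 := by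
    intro e he
    have hNe := hN e he
    have hcs : (∑ s ∈ T e, ∑ L ∈ LS, |g e s L / X e|) ^ 2
        ≤ ((T e).card : ℝ) * P * ∑ s ∈ T e, ∑ L ∈ LS, (g e s L / X e) ^ 2 := by
      have := sq_sum_le_card_mul_sum_sq (s := T e ×ˢ LS) (f := fun p : ℤ × ℤ => |g e p.1 p.2 / X e|)
      rw [sum_product, sum_product, card_product] at this
      simp only [sq_abs] at this
      push_cast at this
      rwa [hLS] at this
    have hq : 0 ≤ ∑ s ∈ T e, ∑ L ∈ LS, (g e s L / X e) ^ 2 :=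
      sum_nonneg fun s _ => sum_nonneg fun L _ => sq_nonneg _
    have h6 : u e ^ 2 ≤ (1 / (((T e).card : ℝ) * P)) * ∑ s ∈ T e, ∑ L ∈ LS, (g e s L / X e) ^ 2 := by
      simp only [hu]
      rw [div_pow, div_le_iff₀ (by positivity)]
      calc _ ≤ _ := hcs
        _ = _ := by field_simp
    refine h6.trans ?_
    refine mul_le_mul_of_nonneg_right ?_ hq
    apply one_div_le_one_div_of_le (by positivity)
    exact mul_le_mul_of_nonneg_right (hT e he) hP.le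
  have h7 : ∑ e ∈ E, u e ^ 2 ≤ B / c := by
    calc ∑ e ∈ E, u e ^ 2
        ≤ ∑ e ∈ E, (1 / (c * P)) * ∑ s ∈ T e, ∑ L ∈ LS, (g e s L / X e) ^ 2 :=
          sum_le_sum h5
      _ = (1 / (c * P)) * ∑ L ∈ LS, ∑ e ∈ E, ∑ s ∈ T e, (g e s L / X e) ^ 2 := by
          rw [← mul_sum]
          congr 1
          rw [sum_comm]
          refine sum_congr rfl fun e _ => ?_
          rw [sum_comm]
      _ ≤ (1 / (c * P)) * (P * B) := by
          refine mul_le_mul_of_nonneg_left ?_ (by positivity)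
          calc _ ≤ ∑ L ∈ LS, B := sum_le_sum hB
            _ = P * B := by rw [sum_const, nsmul_eq_mul, hLS]
      _ = B / c := by field_simp
  have h8 : ∑ e ∈ E, u e ≤ Real.sqrt (E.card * (B / c)) := by
    apply Real.le_sqrt_of_sq_le
    calc (∑ e ∈ E, u e) ^ 2 ≤ E.card * ∑ e ∈ E, u e ^ 2 := sq_sum_le_card_mul_sum_sq
      _ ≤ E.card * (B / c) := mul_le_mul_of_nonneg_left h7 (by positivity)
  calc _ ≤ ∑ e ∈ E, (u e + κ) := sum_le_sum h1
    _ = ∑ e ∈ E, u e + E.card * κ := by rw [sum_add_distrib, sum_const, nsmul_eq_mul]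
    _ ≤ _ := by linarith

/-- members of the shells -/
lemma ERR_mem {J : Finset ℤ} {ρ A r : ℕ} (hJ : ∀ s ∈ J, |s| ≤ 2 * (ρ : ℤ)) {s : ℤ}
    (hs : s ∈ Sh J ρ A r) : |s| ≤ 2 * ((ρ : ℤ) * A ^ r) := by
  unfold Sh at hs
  split_ifs at hs with h
  · subst h
    simpa using hJ s hs
  · rw [mem_union, mem_Ico, mem_Ioc] at hs
    rcases hs with hs | hs
    · rw [abs_le]
      constructor <;> [nlinarith [hs.1, hs.2]; exact hs.2.le]
    · rw [abs_le]
      constructor <;> nlinarith [hs.1, hs.2]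

/-- size of the shells -/
lemma ERR_card {J : Finset ℤ} {ρ A r : ℕ} (hJ : 3 / 4 * (ρ : ℝ) ≤ J.card) :
    3 / 4 * ((ρ : ℝ) * A ^ r) ≤ ((Sh J ρ A r).card : ℝ) := by
  unfold Sh
  split_ifs with h
  · subst h
    simpa using hJ
  · have h1 : (Ico ((ρ : ℤ) * A ^ r) (2 * (ρ * A ^ r))).card
        ≤ (Ico ((ρ : ℤ) * A ^ r) (2 * (ρ * A ^ r)) ∪
            Ioc (-(2 * ((ρ : ℤ) * A ^ r))) (-((ρ : ℤ) * A ^ r))).card :=
      card_le_card subset_union_left
    have h2 : (Ico ((ρ : ℤ) * A ^ r) (2 * (ρ * A ^ r))).card = ρ * A ^ r := by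
      rw [Int.card_Ico]
      have : (2 * ((ρ : ℤ) * A ^ r) - (ρ : ℤ) * A ^ r) = ((ρ * A ^ r : ℕ) : ℤ) := by
        push_cast; ring
      rw [this, Int.toNat_natCast]
    rw [h2] at h1
    have h3 : ((ρ * A ^ r : ℕ) : ℝ) ≤ _ := Nat.cast_le.2 h1
    push_cast at h3
    have h4 : (0 : ℝ) ≤ (ρ : ℝ) * A ^ r := by positivity
    linarith

section
variable {V : Type} [Fintype V] [DecidableEq V]

lemma ERR_jn (a : V → V → ℝ) (pos : V → ℕ) (i : ℕ) (z w : V) :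
    ∀ s ∈ Jn a pos i z w, |s| ≤ 2 * ((2 ^ i : ℕ) : ℤ) := by
  intro s hs
  unfold Jn at hs
  rw [mem_filter, mem_Ico] at hs
  rw [abs_of_nonneg hs.1.1]
  push_cast
  exact hs.1.2.le

lemma ERR_jcard (a : V → V → ℝ) (pos : V → ℕ) (i : ℕ) (z w : V) (hi : 16 ≤ 2 ^ i)
    (hl : 2 ^ i ≤ ln a pos z w) (hl' : ln a pos z w < 2 ^ (i + 1)) :
    3 / 4 * ((2 ^ i : ℕ) : ℝ) ≤ ((Jn a pos i z w).card : ℝ) := by
  have hi3 : 3 ≤ i := by
    by_contra hcon
    push Not at hcon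
    have : 2 ^ i ≤ 2 ^ 2 := Nat.pow_le_pow_right (by norm_num) (by omega)
    omega
  obtain ⟨j, rfl⟩ := Nat.exists_eq_add_of_le hi3
  set q : ℕ := 2 ^ j with hq
  have h8 : 2 ^ (3 + j) = 8 * q := by rw [pow_add, hq]; norm_num
  have h16 : 2 ^ (3 + j + 1) = 16 * q := by rw [pow_succ, h8]; ring
  rw [h8] at hl ⊢
  rw [h16] at hl'
  set l := ln a pos z w with hldef
  have hsub : Icc (q : ℤ) ((l : ℤ) - q) ⊆ Jn a pos (3 + j) z w := by
    intro s hs
    rw [mem_Icc] at hs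
    unfold Jn
    rw [mem_filter, mem_Ico, ← hldef]
    have h8z : (2 : ℤ) ^ (3 + j) = 8 * q := by exact_mod_cast h8
    rw [h8z]
    refine ⟨⟨?_, ?_⟩, ?_, ?_⟩ <;> omega
  have h1 := card_le_card hsub
  rw [Int.card_Icc] at h1
  have h2 : 6 * q ≤ (Jn a pos (3 + j) z w).card := by omega
  have h3 : ((6 * q : ℕ) : ℝ) ≤ _ := Nat.cast_le.2 h2
  push_cast at h3 ⊢
  linarith

lemma ERR_hf (h1 : T_PRF) (a : V → V → ℝ) (pos : V → ℕ) (D0 : V → ℝ) {G m : ℝ}
    (hd : Dat a pos D0 G m) (z w : V) (s L : ℤ) (hL : 0 ≤ L) :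
    |2 * Hf a pos z w (th a pos z + s) - Hf a pos z w (th a pos z + (s - L))
        - Hf a pos z w (th a pos z + (s + L))|
      ≤ |gs a pos D0 L (th a pos z + s) z - gs a pos D0 L (th a pos z + s) w|
        + (2 + D0 z + D0 w) := by
  have e1 := h1 V a pos D0 L (th a pos z + s) z hd.dg hd.iso hd.d0 hL
  have e2 := h1 V a pos D0 L (th a pos z + s) w hd.dg hd.iso hd.d0 hL
  have p1 : ((th a pos z : ℤ) + (s - L)) = (th a pos z : ℤ) + s - L := by ring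
  have p2 : ((th a pos z : ℤ) + (s + L)) = (th a pos z : ℤ) + s + L := by ring
  rw [p1, p2]
  unfold Hf
  set t : ℤ := (th a pos z : ℤ) + s
  rw [abs_le] at e1 e2 ⊢
  have e3 := neg_abs_le (gs a pos D0 L t z - gs a pos D0 L t w)
  have e4 := le_abs_self (gs a pos D0 L t z - gs a pos D0 L t w)
  constructor <;> linarith [e1.1, e1.2, e2.1, e2.2]

end

theorem p_ERR (h1 : T_PRF) (h2 : T_AVG) : T_ERR := by
  intro V _ _ a pos D0 β G m K i h k A R r hd hp hA hr hRm hRk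
  classical
  set ρ : ℕ := 2 ^ i with hρ
  have hρpos : 1 ≤ ρ := Nat.one_le_two_pow
  have hA0 : (1 : ℝ) ≤ A := by
    have : (4 : ℝ) ≤ A := by exact_mod_cast hA
    linarith
  have hka : 0 ≤ ka β G m := by
    unfold ka R0
    have := hp.b0
    have := hp.m2
    have := hd.gpos
    have : 0 ≤ Real.log m := Real.log_nonneg (by linarith)
    positivity
  have hdlo : 0 < dlo β G m := by
    unfold dlo
    have := hp.b0
    have := hp.m2
    have := hd.gpos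
    positivity
  have hP : (0 : ℝ) < ((2 ^ i : ℕ) : ℝ) * A ^ (r + 1) := by positivity
  have hPR : ((2 ^ i : ℕ) : ℝ) * A ^ (r + 1) ≤ 2 ^ i * (A : ℝ) ^ R := by
    push_cast
    have : (A : ℝ) ^ (r + 1) ≤ (A : ℝ) ^ R := pow_le_pow_right₀ hA0 (by omega)
    gcongr
  set LS : Finset ℤ := Ico (((2 ^ i : ℕ) : ℤ) * A ^ (r + 1)) (2 * (((2 ^ i : ℕ) : ℤ) * A ^ (r + 1)))
    with hLSdef
  have hLS : (LS.card : ℝ) = ((2 ^ i : ℕ) : ℝ) * A ^ (r + 1) := by
    rw [hLSdef, Int.card_Ico]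
    have : (2 * (((2 ^ i : ℕ) : ℤ) * A ^ (r + 1)) - ((2 ^ i : ℕ) : ℤ) * A ^ (r + 1))
        = ((2 ^ i * A ^ (r + 1) : ℕ) : ℤ) := by push_cast; ring
    rw [this, Int.toNat_natCast]
    push_cast; ring
  set S : ℝ := Real.sqrt (ka β G m ^ 3 * (2 * 2 ^ i * (A : ℝ) ^ R)) with hS
  have key := ERR_cs (Ek a pos D0 β G m i h k) (fun e => Sh (Jn a pos i e.1 e.2) (2 ^ i) A r) LS
    (fun e s L => 2 * Hf a pos e.1 e.2 (th a pos e.1 + s) - Hf a pos e.1 e.2 (th a pos e.1 + (s - L))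
          - Hf a pos e.1 e.2 (th a pos e.1 + (s + L)))
    (fun e s L => gs a pos D0 L (th a pos e.1 + s) e.1 - gs a pos D0 L (th a pos e.1 + s) e.2)
    (fun e => 2 + D0 e.1 + D0 e.2) (fun e => (dn a e.1 : ℝ) + dn a e.2)
    (((2 ^ i : ℕ) : ℝ) * A ^ (r + 1)) (3 / 4 * (((2 ^ i : ℕ) : ℝ) * A ^ r))
    (1 / dlo β G m + ka β G m)
    (200000 * m * (2 * (((2 ^ i : ℕ) : ℝ) * A ^ (r + 1))) * S)
    hP hLS (by positivity) ?_ ?_ ?_ ?_ ?_
  · refine key.trans ?_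
    apply add_le_add _ le_rfl
    apply Real.sqrt_le_sqrt
    have hS0 : 0 ≤ S := Real.sqrt_nonneg _
    have hm0 : 0 < m := by linarith [hp.m2]
    have e1 : 200000 * m * (2 * (((2 ^ i : ℕ) : ℝ) * A ^ (r + 1))) * S
        / (3 / 4 * (((2 ^ i : ℕ) : ℝ) * A ^ r)) = 1600000 / 3 * m * A * S := by
      rw [pow_succ]
      have : (0 : ℝ) < (A : ℝ) ^ r := by positivity
      have : (0 : ℝ) < ((2 ^ i : ℕ) : ℝ) := by positivity
      field_simp
      ring
    rw [e1]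
    have e2 : (0 : ℝ) ≤ ((Ek a pos D0 β G m i h k).card : ℝ) * (m * A * S) := by positivity
    nlinarith [e2]
  · -- sizes
    intro e he
    have he' : e ∈ GA a pos D0 β G m i h := by
      unfold Ek at he
      exact (mem_filter.1 he).1
    unfold GA at he'
    rw [mem_filter] at he'
    obtain ⟨-, -, hl, hl', hg1, hg2, h16, h16', -, -⟩ := he'
    have := hd.iso e.1
    have hi : 16 ≤ 2 ^ i := by omega
    exact ERR_card (ERR_jcard a pos i e.1 e.2 hi hl hl')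
  · intro e he
    have := hd.iso e.1
    have : (1 : ℝ) ≤ dn a e.1 := by exact_mod_cast this
    have : (0 : ℝ) ≤ dn a e.2 := by positivity
    show (0 : ℝ) < (dn a e.1 : ℝ) + dn a e.2
    linarith
  · intro e he s hs L hL
    rw [hLSdef, mem_Ico] at hL
    have hL0 : 0 ≤ L := by
      have : (0 : ℤ) ≤ ((2 ^ i : ℕ) : ℤ) * A ^ (r + 1) := by positivity
      linarith [hL.1]
    exact ERR_hf h1 a pos D0 hd e.1 e.2 s L hL0
  · intro e he
    have he' : e ∈ GA a pos D0 β G m i h := by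
      unfold Ek at he
      exact (mem_filter.1 he).1
    unfold GA at he'
    rw [mem_filter] at he'
    obtain ⟨-, -, hl, hl', hg1, hg2, h16, h16', -, -⟩ := he'
    unfold Gd at hg1 hg2
    rw [mem_filter] at hg1 hg2
    have a1 := hg1.2.1
    have a2 := hg2.2.1
    have a3 := hg1.2.2.1
    have a4 := hg2.2.2.1
    have hX : 0 < (dn a e.1 : ℝ) + dn a e.2 := by linarith
    show (2 + D0 e.1 + D0 e.2) / ((dn a e.1 : ℝ) + dn a e.2) ≤ _
    rw [div_le_iff₀ hX]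
    have a5 : (1 / dlo β G m) * ((dn a e.1 : ℝ) + dn a e.2) ≥ 2 := by
      rw [ge_iff_le, one_div, ← div_eq_inv_mul, le_div_iff₀ hdlo]
      linarith
    nlinarith
  · intro L hL
    rw [hLSdef, mem_Ico] at hL
    have hLr : (L : ℝ) ≤ 2 * (((2 ^ i : ℕ) : ℝ) * A ^ (r + 1)) := by
      have := hL.2.le
      have h' : (L : ℝ) ≤ ((2 * (((2 ^ i : ℕ) : ℤ) * A ^ (r + 1)) : ℤ) : ℝ) := by exact_mod_cast this
      push_cast at h' ⊢
      exact h'
    have hLR : (L : ℝ) ≤ 2 * 2 ^ i * (A : ℝ) ^ R := by linarith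
    have hLpos : (0 : ℝ) ≤ L := by
      have : (0 : ℤ) ≤ ((2 ^ i : ℕ) : ℤ) * A ^ (r + 1) := by positivity
      have : (0 : ℤ) ≤ L := by linarith [hL.1]
      exact_mod_cast this
    have hk3 : 0 ≤ ka β G m ^ 3 := by positivity
    have hAi : (1 : ℤ) ≤ (A : ℤ) ^ r := by
      have : (1 : ℤ) ≤ A := by exact_mod_cast (by omega : 1 ≤ A)
      exact one_le_pow₀ this
    have := h2 V a pos D0 β G m K i h k (((2 ^ i : ℕ) : ℤ) * A ^ r) L
      (fun e => Sh (Jn a pos i e.1 e.2) (2 ^ i) A r) hd hp ?_ ?_ (by linarith) ?_ ?_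
    · refine this.trans ?_
      have hm0 : 0 ≤ m := by linarith [hp.m2]
      have hs' : Real.sqrt (ka β G m ^ 3 * L) ≤ S := by
        apply Real.sqrt_le_sqrt
        exact mul_le_mul_of_nonneg_left hLR hk3
      have hS0 : 0 ≤ S := Real.sqrt_nonneg _
      calc 200000 * m * L * Real.sqrt (ka β G m ^ 3 * L)
          ≤ 200000 * m * (2 * (((2 ^ i : ℕ) : ℝ) * A ^ (r + 1))) * S := by
            gcongr
        _ = _ := rfl
    · push_cast
      have : (0 : ℤ) ≤ 2 ^ i := by positivity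
      nlinarith
    · have h4 : (4 : ℤ) ≤ A := by exact_mod_cast hA
      have h5 : (0 : ℤ) ≤ ((2 ^ i : ℕ) : ℤ) * A ^ r := by positivity
      have h6 : ((2 ^ i : ℕ) : ℤ) * A ^ (r + 1) = ((2 ^ i : ℕ) : ℤ) * A ^ r * A := by
        rw [pow_succ]; ring
      rw [h6] at hL
      nlinarith [hL.1]
    · exact (mul_le_mul_of_nonneg_left hLR hk3).trans hRk
    · intro e s hs
      exact ERR_mem (ERR_jn a pos i e.1 e.2) hs

end Pool.Agent.HPl
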