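import Mathlib
import Pool.Agent.HPl.Targets
import Pool.Agent.HSh.FIN

set_option autoImplicit false

namespace Pool.Agent.HPl

open Finset Pool.Agent.HLow Pool.Agent.HSh

/-- a decreasing sequence which loses one half in few steps has a big step -/
lemma FINP_step (τ : ℕ → ℝ) (h : ℕ) (β : ℝ) (h0 : τ 0 = 1) (h1 : τ (h + 1) ≤ 1 / 2)
    (h2 : ((h : ℝ) + 1) * β ≤ 1 / 2) : ∃ i ≤ h, β ≤ τ i - τ (i + 1) := by
  by_contra hc
  push Not at hc
  have e1 : ∑ i ∈ range (h + 1), (τ i - τ (i + 1)) < ∑ _i ∈ range (h + 1), β := by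
    refine sum_lt_sum_of_nonempty ⟨0, mem_range.2 (Nat.succ_pos h)⟩ fun i hi => ?_
    exact hc i (Nat.lt_succ_iff.1 (mem_range.1 hi))
  rw [sum_range_sub', h0, sum_const, card_range, nsmul_eq_mul] at e1
  push_cast at e1
  linarith

theorem p_FINP (h1 : T_DAT) (h2 : T_LSUM) (h3 : T_KEYP) (h4 : T_NUMP) : T_FINP := by
  obtain ⟨m1, hm1, H⟩ := h4
  refine ⟨max m1 1000, le_trans (by norm_num) (le_max_right _ _), ?_⟩
  intro V _ _ a G m hW h01 hsum hm
  by_contra hcon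
  push Not at hcon
  have hmm1 : m1 ≤ m := le_trans (le_max_left _ _) hm
  have hm3 : (1000 : ℝ) ≤ m := le_trans (le_max_right _ _) hm
  have hm0 : 0 < m := by linarith
  obtain ⟨h576, W, _, _, b, pos, D0, hD⟩ := h1 V a G m hW h01 hsum (by linarith)
  have hG0 : 0 < G := hD.gpos
  have hG1 : 1 ≤ G := by
    by_contra hc
    push Not at hc
    have e1 : G ^ 5 ≤ 1 := pow_le_one₀ hG0.le hc.le
    have e3 : m ≤ m ^ 3 := by
      have : 1 ≤ m ^ 2 := one_le_pow₀ (by linarith)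
      nlinarith
    linarith
  have hlog : 1 ≤ Real.log m := by
    have e1 : Real.exp 1 ≤ m := by
      have := Real.exp_one_lt_d9
      linarith
    rwa [Real.le_log_iff_exp_le hm0]
  obtain ⟨h, K, A, hK, hA, hh, hY, hi⟩ := H G m hmm1 hG1 hcon
  obtain ⟨β, hβ⟩ : ∃ β : ℝ, β = 1 / (4 * Real.log m) := ⟨_, rfl⟩
  rw [← hβ] at hY hi
  have hβ0 : 0 < β := by rw [hβ]; positivity
  have hβ1 : β ≤ 1 := by
    rw [hβ, div_le_one (by positivity)]
    linarith
  obtain ⟨τ, hτ⟩ : ∃ τ : ℕ → ℝ, ∀ j, τ j = Ta b pos (2 ^ j) / m := ⟨_, fun _ => rfl⟩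
  have hτ0 : τ 0 = 1 := by
    rw [hτ, pow_zero, FIN_Ta_one hD.dg hD.iso, hD.sum]
    exact div_self hm0.ne'
  have hτY : ∀ j, 2 ^ j * τ j ≤ 4 * Real.sqrt (G * m) := by
    intro j
    have e1 := FIN_Ta_mul hD.dg (2 ^ j)
    have e2 := h2 W b pos D0 G m hD
    push_cast at e1
    rw [hτ, ← mul_div_assoc, div_le_iff₀ hm0]
    linarith
  have hτh : τ (h + 1) ≤ β ^ 3 / (64 * 10 ^ 7) := by
    have e1 := (hτY (h + 1)).trans hY
    exact le_of_mul_le_mul_left e1 (by positivity)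
  have hβ3 : β ^ 3 ≤ 1 := pow_le_one₀ hβ0.le hβ1
  obtain ⟨i, hih, hβi⟩ := FINP_step τ h β hτ0 (by
      refine hτh.trans ?_
      rw [div_le_iff₀ (by norm_num)]
      linarith) (by
      rw [hβ]
      have e1 : ((h : ℝ) + 1) * (1 / (4 * Real.log m)) ≤
          2 * Real.log m * (1 / (4 * Real.log m)) :=
        mul_le_mul_of_nonneg_right hh (by positivity)
      refine e1.trans (le_of_eq ?_)
      field_simp
      norm_num)
  obtain ⟨hPar, R, hR, r1, r2, r3, r4⟩ := hi i hih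
  have hdn : ∀ u, dn b u < 2 ^ K := by
    intro u
    have e1 : (dn b u : ℝ) ≤ 2 * m := by
      rw [← hD.sumdn]
      exact single_le_sum (f := fun u => (dn b u : ℝ)) (fun i _ => Nat.cast_nonneg _) (mem_univ u)
    have e2 : (dn b u : ℝ) < ((2 ^ K : ℕ) : ℝ) := by
      push_cast; linarith
    exact_mod_cast e2
  have hTa1 : Ta b pos (2 ^ (h + 1)) ≤ de β * (β * m) / 64 := by
    have e1 : Ta b pos (2 ^ (h + 1)) = τ (h + 1) * m := by
      rw [hτ, div_mul_cancel₀ _ hm0.ne']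
    have e2 : de β * (β * m) / 64 = β ^ 3 / (64 * 10 ^ 7) * m := by
      unfold de; ring
    rw [e1, e2]
    exact mul_le_mul_of_nonneg_right hτh hm0.le
  have hTa2 : β * m ≤ Ta b pos (2 ^ i) - Ta b pos (2 ^ (i + 1)) := by
    have e1 : Ta b pos (2 ^ i) - Ta b pos (2 ^ (i + 1)) = (τ i - τ (i + 1)) * m := by
      rw [hτ, hτ, sub_mul, div_mul_cancel₀ _ hm0.ne', div_mul_cancel₀ _ hm0.ne']
    rw [e1]
    exact mul_le_mul_of_nonneg_right hβi hm0.le
  have hfin := h3 W b pos D0 β G m K i h A R hD hPar hdn hTa1 hTa2 hA hR r1 r2 r3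
  linarith

end Pool.Agent.HPl
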