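import Mathlib
import Pool.Agent.HPl.Targets

set_option autoImplicit false

namespace Pool.Agent.HPl

open Finset Pool.Agent.HLow Pool.Agent.HSh

open Classical in
lemma KEYP_pigeon {V : Type} [Fintype V] [DecidableEq V] (S : Finset (V × V)) (f : V × V → ℕ)
    (K : ℕ) (hf0 : ∀ e ∈ S, 1 ≤ f e) (hf : ∀ e ∈ S, f e < 2 ^ K) (hK : 1 ≤ K) :
    ∃ k < K, (S.card : ℝ) ≤ K * ((S.filter (fun e => 2 ^ k ≤ f e ∧ f e < 2 ^ (k + 1))).card : ℝ) := by
  by_contra hcon
  push Not at hcon
  have h1 : S.card = ∑ k ∈ range K, (S.filter (fun e => 2 ^ k ≤ f e ∧ f e < 2 ^ (k + 1))).card := by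
    rw [card_eq_sum_card_fiberwise (f := fun e => Nat.log 2 (f e)) (t := range K)]
    · apply sum_congr rfl
      intro k _
      congr 1
      apply filter_congr
      intro e he
      have h0 := hf0 e he
      constructor
      · intro hk
        rw [← hk]
        exact ⟨Nat.pow_log_le_self 2 (by omega), Nat.lt_pow_succ_log_self (by norm_num) _⟩
      · rintro ⟨hk1, hk2⟩
        exact Nat.log_eq_of_pow_le_of_lt_pow hk1 hk2
    · intro e he
      simp only [coe_range, Set.mem_Iio]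
      have h0 := hf0 e he
      exact Nat.log_lt_of_lt_pow (by omega) (hf e he)
  have h2 : (K : ℝ) * (S.card : ℝ) < K * (S.card : ℝ) := by
    calc (K : ℝ) * (S.card : ℝ)
        = K * ∑ k ∈ range K, ((S.filter (fun e => 2 ^ k ≤ f e ∧ f e < 2 ^ (k + 1))).card : ℝ) := by
          rw [h1]; push_cast; rfl
      _ = ∑ k ∈ range K, K * ((S.filter (fun e => 2 ^ k ≤ f e ∧ f e < 2 ^ (k + 1))).card : ℝ) := by
          rw [mul_sum]
      _ < ∑ k ∈ range K, (S.card : ℝ) := by
          apply sum_lt_sum_of_nonempty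
          · exact ⟨0, mem_range.mpr (by omega)⟩
          · intro k hk
            exact hcon k (mem_range.mp hk)
      _ = K * (S.card : ℝ) := by rw [sum_const, card_range, nsmul_eq_mul]
  exact lt_irrefl _ h2

/-- the inequality for one good arc -/
lemma KEYP_arc (h2 : T_LOW) (h3 : T_CHN) {V : Type} [Fintype V] [DecidableEq V]
    (a : V → V → ℝ) (pos : V → ℕ) (D0 : V → ℝ) (β G m : ℝ) (K i h A R : ℕ)
    (hD : Dat a pos D0 G m) (hP : Par β G m K i h) (hA : 4 ≤ A) (hR : 1 ≤ R)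
    (hR2 : 2 ^ (h + 3) ≤ 2 ^ i * A ^ R) (z w : V) (he : (z, w) ∈ GA a pos D0 β G m i h) :
    de β / 2 ≤ 4 * R / A + 1 / 2 * ∑ r ∈ range R,
      ((∑ s ∈ Sh (Jn a pos i z w) (2 ^ i) A r,
      ∑ L ∈ Ico (((2 ^ i : ℕ) : ℤ) * A ^ (r + 1)) (2 * (((2 ^ i : ℕ) : ℤ) * A ^ (r + 1))),
        |2 * Hf a pos z w (th a pos z + s) - Hf a pos z w (th a pos z + (s - L))
          - Hf a pos z w (th a pos z + (s + L))|)
      / (((Sh (Jn a pos i z w) (2 ^ i) A r).card : ℝ) * (((2 ^ i : ℕ) : ℝ) * A ^ (r + 1)))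
      / ((dn a z : ℝ) + dn a w)) := by
  obtain ⟨q1, q2, q3⟩ := h2 V a pos D0 β G m K i h z w hD hP he
  unfold GA at he
  rw [mem_filter] at he
  obtain ⟨-, e1, e2, e3, e4, e5, e6, e7, -, -⟩ := he
  simp only at e1 e2 e3 e4 e5 e6 e7
  have hpos : pos z < pos w := arc_pos hD.dg e1
  have hln := ln_add (a := a) hpos
  have hz1 := hD.iso z
  have hw1 := hD.iso w
  set X : ℝ := (dn a z : ℝ) + dn a w with hX
  have hX0 : 0 < X := by
    have : (1 : ℝ) ≤ dn a z := by exact_mod_cast hz1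
    have : (1 : ℝ) ≤ dn a w := by exact_mod_cast hw1
    linarith
  -- powers of two
  have hi1 : 1 ≤ i := by
    by_contra hcon
    have : i = 0 := by omega
    subst this
    simp at e6
    omega
  obtain ⟨j, rfl⟩ : ∃ j, i = j + 1 := ⟨i - 1, by omega⟩
  have hJne : (Jn a pos (j + 1) z w).Nonempty := by
    refine ⟨2 ^ j, ?_⟩
    unfold Jn
    rw [mem_filter, mem_Ico]
    have hp : (0 : ℤ) < 2 ^ j := by positivity
    have e2' : (2 : ℤ) ^ (j + 1) ≤ (ln a pos z w : ℤ) := by exact_mod_cast e2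
    rw [pow_succ] at e2' ⊢
    refine ⟨⟨hp.le, by linarith⟩, by linarith, by linarith⟩
  have hJ2 : ∀ s ∈ Jn a pos (j + 1) z w, |s| ≤ 2 * ((2 ^ (j + 1) : ℕ) : ℤ) := by
    intro s hs
    unfold Jn at hs
    rw [mem_filter, mem_Ico] at hs
    obtain ⟨⟨hs1, hs2⟩, -, -⟩ := hs
    rw [abs_of_nonneg hs1]
    push_cast
    exact hs2.le
  have hchn := h3 (fun s => Hf a pos z w (th a pos z + s)) X (1 / 4 * de β * X) A R
    (2 ^ (j + 1)) (Jn a pos (j + 1) z w) (fun s => q1 _) hA hR (Nat.one_le_two_pow) hJne hJ2 ?_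
  · have hlow : 3 / 4 * de β * X ≤ (∑ s ∈ Jn a pos (j + 1) z w,
        |Hf a pos z w (th a pos z + s)|) / (Jn a pos (j + 1) z w).card := by
      have hc : (0 : ℝ) < (Jn a pos (j + 1) z w).card := by
        exact_mod_cast hJne.card_pos
      rw [le_div_iff₀ hc]
      have : ∀ s ∈ Jn a pos (j + 1) z w, 3 / 4 * de β * X ≤ |Hf a pos z w (th a pos z + s)| := by
        intro s hs
        unfold Jn at hs
        rw [mem_filter, mem_Ico] at hs
        obtain ⟨⟨hs1, hs2⟩, hs3, hs4⟩ := hs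
        have hln' : (th a pos z : ℤ) + ln a pos z w = th a pos w + dn a w := by
          exact_mod_cast hln
        refine le_trans ?_ (le_abs_self _)
        apply q2
        · linarith
        · rw [← hln']; linarith
      have h9 := card_nsmul_le_sum _ _ _ this
      rw [nsmul_eq_mul] at h9
      linarith
    have hmain := le_trans hlow hchn
    have hx : ∀ c : ℝ, c / X * X = c := fun c => div_mul_cancel₀ c hX0.ne'
    rw [← sum_div]
    apply le_of_mul_le_mul_right _ hX0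
    have hx1 : ∀ S : ℝ, (4 * R / A + 1 / 2 * (S / X)) * X = 4 * R * X / A + 1 / 2 * S := by
      intro S
      field_simp
    rw [hx1]
    linarith
  · intro s L hs hL
    have hpow : (A : ℤ) ^ R = A ^ (R - 1) * A := by
      rw [← pow_succ]
      congr 1
      omega
    have hR2' : (2 : ℤ) ^ (h + 3) ≤ ((2 ^ (j + 1) : ℕ) : ℤ) * A ^ R := by exact_mod_cast hR2
    have hA' : (4 : ℤ) ≤ A := by exact_mod_cast hA
    set B : ℤ := ((2 ^ (j + 1) : ℕ) : ℤ) * A ^ (R - 1) with hB
    have hB0 : 0 ≤ B := by positivity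
    have hBA : ((2 ^ (j + 1) : ℕ) : ℤ) * A ^ R = B * A := by rw [hpow, hB]; ring
    rw [hBA] at hL hR2'
    have hB4 : B * 4 ≤ B * A := mul_le_mul_of_nonneg_left hA' hB0
    have hh : (2 : ℤ) ^ (h + 3) = 2 * 2 ^ (h + 2) := by ring
    rw [hh] at hR2'
    have hs' := abs_le.mp hs
    have := q3 (th a pos z + (s - L)) (th a pos z + (s + L)) (by linarith [hs'.1, hs'.2])
      (by linarith [hs'.1, hs'.2])
    linarith

theorem p_KEYP (h1 : HSh.T_ARC) (h2 : T_LOW) (h3 : T_CHN) (h4 : T_ERR) : T_KEYP := by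
  intro V _ _ a pos D0 β G m K i h A R hD hP hdn hTa1 hTa2 hA hR hR2 hm1 hk1
  classical
  have harc := h1 V a pos D0 β G m K i h hD hP hdn hTa1 hTa2
  have hm : 0 < m := by linarith [hD.m1]
  have hβ := hP.b0
  have hK : (0 : ℝ) < K := by
    have := hP.K1
    exact_mod_cast (by omega : 0 < K)
  obtain ⟨k, hkK, hk⟩ := KEYP_pigeon (GA a pos D0 β G m i h)
    (fun e => min (dn a e.1) (dn a e.2)) K
    (fun e _ => le_min (hD.iso _) (hD.iso _)) (fun e _ => lt_of_le_of_lt (min_le_left _ _) (hdn _))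
    hP.K1
  have hEk : ((GA a pos D0 β G m i h).filter (fun e => 2 ^ k ≤ min (dn a e.1) (dn a e.2) ∧
      min (dn a e.1) (dn a e.2) < 2 ^ (k + 1))) = Ek a pos D0 β G m i h k := by
    unfold Ek
    congr
  rw [hEk] at hk
  set E := Ek a pos D0 β G m i h k with hE
  have hc : 1 / 2 * (β * m) ≤ K * (E.card : ℝ) := le_trans harc hk
  have hβm : 0 < β * m := mul_pos hβ hm
  have hE0 : (0 : ℝ) < E.card := by
    by_contra hcon
    have : (E.card : ℝ) ≤ 0 := not_lt.mp hcon
    nlinarith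
  set sg : ℝ := Real.sqrt (ka β G m ^ 3 * (2 * 2 ^ i * (A : ℝ) ^ R)) with hsg
  have hsg0 : 0 ≤ sg := Real.sqrt_nonneg _
  have herr : ∀ r ∈ range R, _ := fun r hr => h4 V a pos D0 β G m K i h k A R r hD hP hA
    (mem_range.mp hr) hm1 hk1
  have hsum := sum_le_sum herr
  rw [sum_const, card_range, nsmul_eq_mul, sum_comm] at hsum
  have harcs : ∀ e ∈ E, _ := fun e he => KEYP_arc h2 h3 a pos D0 β G m K i h A R hD hP hA hR hR2
    e.1 e.2 (by
      rw [hE] at he
      unfold Ek at he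
      exact (mem_filter.mp he).1)
  have hsum2 := sum_le_sum harcs
  rw [sum_const, nsmul_eq_mul, sum_add_distrib, sum_const, nsmul_eq_mul, ← mul_sum] at hsum2
  have hA0 : (0 : ℝ) < A := by
    have : (4 : ℝ) ≤ A := by exact_mod_cast hA
    linarith
  have hfin : (E.card : ℝ) * (de β / 2) ≤ E.card * (4 * R / A) + 1 / 2 * (R *
      (Real.sqrt (533334 * E.card * m * A * sg) + E.card * (1 / dlo β G m + ka β G m))) :=
    le_trans hsum2 (by linarith [hsum])
  have hsq : Real.sqrt (533334 * E.card * m * A * sg)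
      ≤ E.card * Real.sqrt (1066668 * K * A * sg / β) := by
    have h5 : (E.card : ℝ) * Real.sqrt (1066668 * K * A * sg / β)
        = Real.sqrt ((E.card : ℝ) ^ 2 * (1066668 * K * A * sg / β)) := by
      rw [Real.sqrt_mul (by positivity), Real.sqrt_sq hE0.le]
    rw [h5]
    apply Real.sqrt_le_sqrt
    have h6 : 533334 * E.card * m * A * sg = (533334 * E.card * A * sg / β) * (β * m) := by
      field_simp
    have h7 : (E.card : ℝ) ^ 2 * (1066668 * K * A * sg / β)
        = (533334 * E.card * A * sg / β) * (2 * (K * E.card)) := by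
      field_simp
      ring
    rw [h6, h7]
    apply mul_le_mul_of_nonneg_left _ (by positivity)
    linarith
  have hR0 : (0 : ℝ) ≤ R := by positivity
  have h8 : (R : ℝ) * Real.sqrt (533334 * E.card * m * A * sg)
      ≤ R * (E.card * Real.sqrt (1066668 * K * A * sg / β)) := mul_le_mul_of_nonneg_left hsq hR0
  have h9 : (E.card : ℝ) * de β ≤ E.card * (8 * R / A + R * (Real.sqrt (1066668 * K * A * sg / β)
      + 1 / dlo β G m + ka β G m)) := by
    have h10 : (E.card : ℝ) * (4 * R / A) = 1 / 2 * (E.card * (8 * R / A)) := by ring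
    rw [h10] at hfin
    nlinarith
  exact le_of_mul_le_mul_left h9 hE0

end Pool.Agent.HPl
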