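import Mathlib
import Pool.Agent.HPl.Targets

set_option autoImplicit false
set_option linter.unusedSectionVars false
set_option linter.unusedVariables false

namespace Pool.Agent.HPl

open Finset Pool.Agent.HLow Pool.Agent.HSh

section

variable {V : Type} [Fintype V] [DecidableEq V]

lemma LOW_nn {a : V → V → ℝ} {pos : V → ℕ} (h : Dg a pos) (u v : V) : 0 ≤ a u v := by
  rcases h.zo u v with e | e
  · rw [e]
  · rw [e]; norm_num

lemma LOW_dn {a : V → V → ℝ} {pos : V → ℕ} (h : Dg a pos) (u : V) :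
    (dn a u : ℝ) = ∑ x, sy a u x := by
  rw [dn_cast h, sy_deg]

lemma LOW_Ph_nn {a : V → V → ℝ} {pos : V → ℕ} (h : Dg a pos) (t : ℤ) (u : V) :
    0 ≤ Ph a pos t u := by
  unfold Ph
  refine sum_nonneg fun x _ => ?_
  split_ifs
  · exact h.adj.nonneg u x
  · exact le_rfl

lemma LOW_Ph_le {a : V → V → ℝ} {pos : V → ℕ} (h : Dg a pos) (t : ℤ) (u : V) :
    Ph a pos t u ≤ dn a u := by
  rw [LOW_dn h]
  unfold Ph
  refine sum_le_sum fun x _ => ?_
  split_ifs
  · exact le_rfl
  · exact h.adj.nonneg u x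

/-- the tail of a good arc -/
lemma LOW_tail {a : V → V → ℝ} {pos : V → ℕ} {i : ℕ} {t : ℤ} {z : V}
    (hd : Dg a pos) (iso : ∀ u, 1 ≤ dn a u)
    (h1 : 8 * (th a pos z : ℤ) + 2 ^ i ≤ 8 * t) :
    dm a z + Fp a pos i z ≤ Ph a pos t z := by
  have p0 : 0 < (2 : ℤ) ^ i := by positivity
  unfold dm Fp Ph
  rw [← sum_add_distrib]
  refine sum_le_sum fun x _ => ?_
  unfold sy
  have n1 := LOW_nn hd x z
  have n2 := LOW_nn hd z x
  by_cases hxz : a x z = 0
  · rw [hxz]
    by_cases hzx : a z x = 0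
    · rw [hzx]; simp
    · have hp := arc_pos hd hzx
      have q2 := ln_add (a := a) hp
      have q3 := iso x
      by_cases hl : 8 * ln a pos z x ≤ 2 ^ i
      · have hl' : 8 * (ln a pos z x : ℤ) ≤ 2 ^ i := by exact_mod_cast hl
        have q2' : (th a pos z : ℤ) + ln a pos z x = th a pos x + dn a x := by exact_mod_cast q2
        have q3' : (1 : ℤ) ≤ dn a x := by exact_mod_cast q3
        have q4 : (th a pos x : ℤ) < t := by omega
        rw [if_pos hl, if_pos q4]
        linarith
      · rw [if_neg hl]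
        split_ifs <;> linarith
  · have hp := arc_pos hd hxz
    have q1 := th_add (a := a) hp
    have q1' : (th a pos x : ℤ) + dn a x ≤ th a pos z := by exact_mod_cast q1
    have q4 : (th a pos x : ℤ) < t := by omega
    rw [if_pos q4, hd.anti x z hxz]
    simp

/-- the head of a good arc -/
lemma LOW_head {a : V → V → ℝ} {pos : V → ℕ} {i : ℕ} {t : ℤ} {w : V}
    (hd : Dg a pos)
    (h1 : 8 * t + 2 ^ i ≤ 8 * ((th a pos w : ℤ) + dn a w)) :
    Ph a pos t w ≤ dm a w - Fm a pos i w := by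
  have p0 : 0 < (2 : ℤ) ^ i := by positivity
  unfold dm Fm Ph
  rw [← sum_sub_distrib]
  refine sum_le_sum fun x _ => ?_
  unfold sy
  have n1 := LOW_nn hd x w
  have n2 := LOW_nn hd w x
  by_cases hxw : a x w = 0
  · rw [hxw]
    by_cases hwx : a w x = 0
    · rw [hwx]; simp
    · have hp := arc_pos hd hwx
      have q1 := th_add (a := a) hp
      have q1' : (th a pos w : ℤ) + dn a w ≤ th a pos x := by exact_mod_cast q1
      have q4 : ¬ (th a pos x : ℤ) < t := by omega
      rw [if_neg q4]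
      simp
  · have hp := arc_pos hd hxw
    have q2 := ln_add (a := a) hp
    rw [hd.anti x w hxw]
    by_cases hl : 8 * ln a pos x w ≤ 2 ^ i
    · have hl' : 8 * (ln a pos x w : ℤ) ≤ 2 ^ i := by exact_mod_cast hl
      have q2' : (th a pos x : ℤ) + ln a pos x w = th a pos w + dn a w := by exact_mod_cast q2
      have q4 : ¬ (th a pos x : ℤ) < t := by omega
      rw [if_neg q4, if_pos hl]
      linarith
    · rw [if_neg hl]
      split_ifs <;> linarith

/-- long arcs to `u` -/
noncomputable def LOW_Am (a : V → V → ℝ) (pos : V → ℕ) (j : ℕ) (u : V) : ℝ :=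
  ∑ x, if 2 ^ j ≤ ln a pos x u then a x u else 0

/-- long arcs from `u` -/
noncomputable def LOW_Ap (a : V → V → ℝ) (pos : V → ℕ) (j : ℕ) (u : V) : ℝ :=
  ∑ x, if 2 ^ j ≤ ln a pos u x then a u x else 0

lemma LOW_before {a : V → V → ℝ} {pos : V → ℕ} {h : ℕ} {t : ℤ} {u : V}
    (hd : Dg a pos) (h1 : t + 2 ^ (h + 2) ≤ th a pos u) :
    Ph a pos t u ≤ LOW_Am a pos (h + 1) u := by
  have e2 : (2 : ℤ) ^ (h + 2) = 2 * 2 ^ (h + 1) := by ring
  have p0 : 0 < (2 : ℤ) ^ (h + 1) := by positivity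
  unfold LOW_Am Ph
  refine sum_le_sum fun x _ => ?_
  unfold sy
  have n1 := LOW_nn hd x u
  have n2 := LOW_nn hd u x
  by_cases ht : (th a pos x : ℤ) < t
  · rw [if_pos ht]
    by_cases hux : a u x = 0
    · rw [hux]
      by_cases hxu : a x u = 0
      · rw [hxu]; simp
      · have hp := arc_pos hd hxu
        have q2 := ln_add (a := a) hp
        have q2' : (th a pos x : ℤ) + ln a pos x u = th a pos u + dn a u := by exact_mod_cast q2
        have q5 : (2 : ℤ) ^ (h + 1) ≤ ln a pos x u := by omega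
        have q6 : 2 ^ (h + 1) ≤ ln a pos x u := by exact_mod_cast q5
        rw [if_pos q6]
        simp
    · exfalso
      have hp := arc_pos hd hux
      have q1 := th_add (a := a) hp
      have q1' : (th a pos u : ℤ) + dn a u ≤ th a pos x := by exact_mod_cast q1
      omega
  · rw [if_neg ht]
    split_ifs <;> linarith

lemma LOW_after {a : V → V → ℝ} {pos : V → ℕ} {h : ℕ} {t : ℤ} {u : V}
    (hd : Dg a pos) (h1 : (th a pos u : ℤ) + 2 ^ (h + 1) ≤ t) :
    dn a u - Ph a pos t u ≤ LOW_Ap a pos (h + 1) u := by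
  have p0 : 0 < (2 : ℤ) ^ (h + 1) := by positivity
  rw [LOW_dn hd]
  unfold LOW_Ap Ph
  rw [← sum_sub_distrib]
  refine sum_le_sum fun x _ => ?_
  unfold sy
  have n1 := LOW_nn hd x u
  have n2 := LOW_nn hd u x
  by_cases ht : (th a pos x : ℤ) < t
  · rw [if_pos ht, sub_self]
    split_ifs <;> linarith
  · rw [if_neg ht, sub_zero]
    by_cases hxu : a x u = 0
    · rw [hxu]
      by_cases hux : a u x = 0
      · rw [hux]; simp
      · have hp := arc_pos hd hux
        have q2 := ln_add (a := a) hp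
        have q2' : (th a pos u : ℤ) + ln a pos u x = th a pos x + dn a x := by exact_mod_cast q2
        have q5 : (2 : ℤ) ^ (h + 1) ≤ ln a pos u x := by omega
        have q6 : 2 ^ (h + 1) ≤ ln a pos u x := by exact_mod_cast q5
        rw [if_pos q6]
        simp
    · exfalso
      have hp := arc_pos hd hxu
      have q1 := th_add (a := a) hp
      have q1' : (th a pos x : ℤ) + dn a x ≤ th a pos u := by exact_mod_cast q1
      omega

end

theorem p_LOW : T_LOW := by
  intro V _ _ a pos D0 β G m K i h z w hdat hpar hmem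
  unfold GA at hmem
  rw [mem_filter] at hmem
  obtain ⟨_, hne, hl1, hl2, hz, hw, hz16, hw16, hFp, hFm⟩ := hmem
  dsimp only at hne hl1 hl2 hz hw hz16 hw16 hFp hFm
  have hp := arc_pos hdat.dg hne
  have q1 := th_add (a := a) hp
  have q2 := ln_add (a := a) hp
  unfold Gd at hz hw
  rw [mem_filter] at hz hw
  obtain ⟨_, _, _, _, z1, z2⟩ := hz
  obtain ⟨_, _, _, _, w1, w2⟩ := hw
  have cz := dn_cast hdat.dg z
  have cw := dn_cast hdat.dg w
  refine ⟨fun t => ?_, fun t h1 h2 => ?_, fun t1 t2 h1 h2 => ?_⟩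
  · have b1 := LOW_Ph_nn hdat.dg t z
    have b2 := LOW_Ph_nn hdat.dg t w
    have b3 := LOW_Ph_le hdat.dg t z
    have b4 := LOW_Ph_le hdat.dg t w
    have b5 : (0 : ℝ) ≤ dn a z := Nat.cast_nonneg _
    have b6 : (0 : ℝ) ≤ dn a w := Nat.cast_nonneg _
    unfold Hf
    rw [abs_le]
    constructor <;> linarith
  · have gz := LOW_tail hdat.dg hdat.iso h1
    have gw := LOW_head hdat.dg h2
    have a1 := le_abs_self (dp a z - dm a z)
    have a2 := neg_abs_le (dp a w - dm a w)
    unfold Hf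
    linarith
  · have q1' : (th a pos z : ℤ) + dn a z ≤ th a pos w := by exact_mod_cast q1
    have q2' : (th a pos z : ℤ) + ln a pos z w = th a pos w + dn a w := by exact_mod_cast q2
    have e1 : (2 : ℤ) ^ (i + 1) ≤ 2 ^ (h + 1) := by
      have := hpar.ih
      exact pow_le_pow_right₀ (by norm_num) (by omega)
    have e2 : (2 : ℤ) ^ (h + 2) = 2 * 2 ^ (h + 1) := by ring
    have p0 : 0 < (2 : ℤ) ^ (h + 1) := by positivity
    have hl2' : (ln a pos z w : ℤ) < 2 ^ (i + 1) := by exact_mod_cast hl2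
    have c1 := LOW_before (h := h) hdat.dg (u := z) h1
    have c2 := LOW_before (h := h) (t := t1) hdat.dg (u := w) (by omega)
    have c3 := LOW_after (h := h) (t := t2) hdat.dg (u := z) (by omega)
    have c4 := LOW_after (h := h) (t := t2) hdat.dg (u := w) (by omega)
    have b1 := LOW_Ph_nn hdat.dg t1 z
    have b2 := LOW_Ph_nn hdat.dg t1 w
    have b3 := LOW_Ph_le hdat.dg t2 z
    have b4 := LOW_Ph_le hdat.dg t2 w
    have fz : Fa a pos (h + 1) z = LOW_Ap a pos (h + 1) z + LOW_Am a pos (h + 1) z := rfl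
    have fw : Fa a pos (h + 1) w = LOW_Ap a pos (h + 1) w + LOW_Am a pos (h + 1) w := rfl
    unfold Hf
    rw [abs_le]
    constructor <;> linarith

end Pool.Agent.HPl
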