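import Pool.Agent.HPl.Targets

set_option autoImplicit false

/-!
# NUMP: choice of the parameters
-/

namespace Pool.Agent.HPl

open Pool.Agent.HSh

/-- the basic estimates in terms of `l = log m` and `y = m ^ (1 / 14)` -/
theorem NUMP_base (G m l y : ℝ) (hl : 10 ^ 40 ≤ l) (hy : l ^ 60 ≤ y) (hG1 : 1 ≤ G)
    (hG : G * l ^ 12 ≤ y ^ 10) (hm : m = y ^ 14) (hlog : Real.log m = l) :
    0 ≤ ka (1 / (4 * l)) G m ∧ ka (1 / (4 * l)) G m * (l ^ 10 * y ^ 4) ≤ 576 ∧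
      Real.sqrt (G * m) * l ^ 6 ≤ y ^ 12 := by
  have hl0 : 0 < l := lt_of_lt_of_le (by norm_num) hl
  have hy0 : 0 < y := lt_of_lt_of_le (by positivity) hy
  have hm0 : 0 < m := by rw [hm]; positivity
  have hR0 : 0 ≤ R0 G m := by unfold R0; rw [hlog]; positivity
  have hR : R0 G m ≤ 9 * l * G := by
    unfold R0
    rw [hlog]
    have h10 : (10 : ℝ) ≤ l := le_trans (by norm_num) hl
    nlinarith
  refine ⟨by unfold ka; positivity, ?_, ?_⟩
  · have h1 : ka (1 / (4 * l)) G m = 64 * l * R0 G m / m := by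
      unfold ka
      field_simp
      ring
    rw [h1, div_mul_eq_mul_div, div_le_iff₀ hm0]
    calc 64 * l * R0 G m * (l ^ 10 * y ^ 4) ≤ 64 * l * (9 * l * G) * (l ^ 10 * y ^ 4) := by
          gcongr
      _ = 576 * ((G * l ^ 12) * y ^ 4) := by ring
      _ ≤ 576 * (y ^ 10 * y ^ 4) := by gcongr
      _ = 576 * m := by rw [hm]; ring
  · have h1 : (Real.sqrt (G * m) * l ^ 6) ^ 2 ≤ (y ^ 12) ^ 2 := by
      rw [mul_pow, Real.sq_sqrt (by positivity)]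
      calc G * m * (l ^ 6) ^ 2 = (G * l ^ 12) * m := by ring
        _ ≤ y ^ 10 * m := mul_le_mul_of_nonneg_right hG hm0.le
        _ = (y ^ 12) ^ 2 := by rw [hm]; ring
    exact (sq_le_sq₀ (by positivity) (by positivity)).mp h1

/-- the exponent `K` -/
theorem NUMP_K (m l : ℝ) (hl : 10 ^ 40 ≤ l) (hm : m = Real.exp l) :
    ∃ K : ℕ, 2 * m < 2 ^ K ∧ 1 ≤ K ∧ (K : ℝ) ≤ 2 * l := by
  have h10 : (10 : ℝ) ≤ l := le_trans (by norm_num) hl
  refine ⟨⌊2 * l⌋₊, ?_, ?_, Nat.floor_le (by linarith)⟩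
  · have h1 : 2 * l - 1 < (⌊2 * l⌋₊ : ℝ) := by
      have := Nat.lt_floor_add_one (2 * l)
      linarith
    have h2 := Real.log_two_gt_d9
    have h3 := Real.log_two_lt_d9
    have h4 : (2 : ℝ) ^ ⌊2 * l⌋₊ = Real.exp (Real.log 2 * (⌊2 * l⌋₊ : ℝ)) := by
      rw [← Real.rpow_def_of_pos (by norm_num), Real.rpow_natCast]
    have h5 : 2 * m = Real.exp (Real.log 2 + l) := by
      rw [Real.exp_add, Real.exp_log (by norm_num), hm]
    rw [h4, h5]
    apply Real.exp_lt_exp.2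
    have h6 : Real.log 2 * (2 * l - 1) < Real.log 2 * (⌊2 * l⌋₊ : ℝ) :=
      mul_lt_mul_of_pos_left h1 (by linarith)
    nlinarith
  · apply Nat.le_floor
    push_cast
    linarith

/-- the smallest exponent `h` -/
theorem NUMP_h (W : ℝ) (hW : 1 ≤ W) : ∃ h : ℕ, W ≤ 2 ^ (h + 1) ∧ (2 : ℝ) ^ (h + 1) ≤ 2 * W := by
  have hex : ∃ h : ℕ, W ≤ 2 ^ (h + 1) := by
    obtain ⟨n, hn⟩ := pow_unbounded_of_one_lt W (by norm_num : (1 : ℝ) < 2)
    exact ⟨n, hn.le.trans (pow_le_pow_right₀ (by norm_num) (by omega))⟩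
  classical
  refine ⟨Nat.find hex, Nat.find_spec hex, ?_⟩
  rcases Nat.eq_zero_or_pos (Nat.find hex) with h0 | h0
  · rw [h0]
    norm_num
    linarith
  · have h1 := Nat.find_min hex (show Nat.find hex - 1 < Nat.find hex by omega)
    rw [show Nat.find hex - 1 + 1 = Nat.find hex by omega] at h1
    rw [pow_succ]
    have := not_le.1 h1
    linarith

/-- the smallest exponent `R` -/
theorem NUMP_R (A i h : ℕ) (hA : 4 ≤ A) (hi : i ≤ h) : ∃ R : ℕ, 1 ≤ R ∧ R ≤ h + 3 ∧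
    2 ^ (h + 3) ≤ 2 ^ i * A ^ R ∧ 2 * 2 ^ i * A ^ R ≤ 2 ^ (h + 4) * A := by
  have hex : ∃ R : ℕ, 1 ≤ R ∧ 2 ^ (h + 3) ≤ 2 ^ i * A ^ R := by
    refine ⟨h + 3, by omega, ?_⟩
    calc 2 ^ (h + 3) ≤ A ^ (h + 3) := Nat.pow_le_pow_left (by omega) _
      _ ≤ 2 ^ i * A ^ (h + 3) := Nat.le_mul_of_pos_left _ (by positivity)
  classical
  obtain ⟨h1, h2⟩ := Nat.find_spec hex
  obtain ⟨R, hR⟩ : ∃ R, R = Nat.find hex := ⟨_, rfl⟩
  rw [← hR] at h1 h2
  refine ⟨R, ?_⟩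
  rcases Nat.lt_or_ge R 2 with h3 | h3
  · have h4 : R = 1 := by omega
    subst h4
    refine ⟨le_rfl, by omega, h2, ?_⟩
    rw [pow_one]
    apply Nat.mul_le_mul_right
    calc 2 * 2 ^ i = 2 ^ (i + 1) := by ring
      _ ≤ 2 ^ (h + 4) := Nat.pow_le_pow_right (by norm_num) (by omega)
  · have h5 : 2 ^ i * A ^ (R - 1) < 2 ^ (h + 3) := by
      by_contra hcon
      have := Nat.find_min hex (show R - 1 < Nat.find hex by omega)
      exact this ⟨by omega, not_lt.1 hcon⟩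
    refine ⟨h1, ?_, h2, ?_⟩
    · have h6 : 2 ^ (R - 1) < 2 ^ (h + 3) := by
        calc 2 ^ (R - 1) ≤ A ^ (R - 1) := Nat.pow_le_pow_left (by omega) _
          _ ≤ 2 ^ i * A ^ (R - 1) := Nat.le_mul_of_pos_left _ (by positivity)
          _ < _ := h5
      have h7 := (Nat.pow_lt_pow_iff_right (by norm_num : 1 < 2)).1 h6
      omega
    · calc 2 * 2 ^ i * A ^ R = 2 * (2 ^ i * A ^ (R - 1)) * A := by
            have h8 : A ^ R = A ^ (R - 1) * A := by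
              rw [← pow_succ, Nat.sub_add_cancel h1]
            rw [h8]
            ring
        _ ≤ 2 * 2 ^ (h + 3) * A := by
            apply Nat.mul_le_mul_right
            exact Nat.mul_le_mul_left _ h5.le
        _ = 2 ^ (h + 4) * A := by ring

/-- the last condition -/
theorem NUMP_last (l T Q A R K dl κ : ℝ) (hl : 10 ^ 40 ≤ l)
    (hT : T * l ^ 30 ≤ 10 ^ 33) (hA : 10 ^ 11 * l ^ 3 ≤ A) (hA2 : A ≤ 2 * 10 ^ 11 * l ^ 3)
    (hR0 : 0 ≤ R) (hR : R ≤ 3 * l) (hK : K ≤ 2 * l)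
    (hQ : Q = 1066668 * K * A * Real.sqrt T / (1 / (4 * l))) (hdl : dl * l ^ 5 ≤ 10 ^ 18)
    (hκ : κ * l ^ 5 ≤ 10 ^ 18) :
    8 * R / A + R * (Real.sqrt Q + dl + κ) < (1 / (4 * l)) ^ 2 / 10 ^ 7 := by
  have hl0 : 0 < l := lt_of_lt_of_le (by norm_num) hl
  have hA0 : 0 < A := lt_of_lt_of_le (by positivity) hA
  have h5 : (0 : ℝ) < l ^ 5 := by positivity
  have hsT : Real.sqrt T ≤ 10 ^ 17 / l ^ 15 := by
    apply Real.sqrt_le_iff.2
    refine ⟨by positivity, ?_⟩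
    rw [div_pow, le_div_iff₀ (by positivity), ← pow_mul]
    exact hT.trans (by norm_num)
  have hsQ : Real.sqrt Q ≤ 10 ^ 18 / l ^ 5 := by
    apply Real.sqrt_le_iff.2
    refine ⟨by positivity, ?_⟩
    rw [div_pow, le_div_iff₀ (by positivity), ← pow_mul, hQ]
    have e1 : 1066668 * K * A * Real.sqrt T / (1 / (4 * l)) * l ^ (5 * 2) =
        4266672 * l ^ 11 * (K * A * Real.sqrt T) := by
      field_simp
      ring
    rw [e1]
    calc 4266672 * l ^ 11 * (K * A * Real.sqrt T)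
        ≤ 4266672 * l ^ 11 * ((2 * l) * (2 * 10 ^ 11 * l ^ 3) * (10 ^ 17 / l ^ 15)) := by
          gcongr
      _ = 4266672 * 4 * 10 ^ 28 := by
          field_simp
          norm_num
      _ ≤ (10 ^ 18) ^ 2 := by norm_num
  have hdl' : dl ≤ 10 ^ 18 / l ^ 5 := by rwa [le_div_iff₀ h5]
  have hκ' : κ ≤ 10 ^ 18 / l ^ 5 := by rwa [le_div_iff₀ h5]
  have e1 : 8 * R / A ≤ 24 / (10 ^ 11 * l ^ 2) := by
    rw [div_le_div_iff₀ hA0 (by positivity)]
    calc 8 * R * (10 ^ 11 * l ^ 2) ≤ 8 * (3 * l) * (10 ^ 11 * l ^ 2) := by gcongr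
      _ = 24 * (10 ^ 11 * l ^ 3) := by ring
      _ ≤ 24 * A := by gcongr
  have e2 : R * (Real.sqrt Q + dl + κ) ≤ 1 / (10 ^ 11 * l ^ 2) := by
    calc R * (Real.sqrt Q + dl + κ) ≤ R * (3 * (10 ^ 18 / l ^ 5)) := by
          apply mul_le_mul_of_nonneg_left _ hR0
          linarith
      _ ≤ (3 * l) * (3 * (10 ^ 18 / l ^ 5)) := by
          apply mul_le_mul_of_nonneg_right hR (by positivity)
      _ = 9 * 10 ^ 18 / l ^ 4 := by
          field_simp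
          norm_num
      _ ≤ 1 / (10 ^ 11 * l ^ 2) := by
          rw [div_le_div_iff₀ (by positivity) (by positivity)]
          have h2 : (10 : ℝ) ^ 80 ≤ l ^ 2 := by
            have := pow_le_pow_left₀ (by norm_num) hl 2
            exact le_trans (by norm_num) this
          nlinarith [mul_le_mul_of_nonneg_right h2 (by positivity : 0 ≤ l ^ 2)]
  have e3 : (1 / (4 * l)) ^ 2 / 10 ^ 7 = 625 / (10 ^ 11 * l ^ 2) := by
    field_simp
    norm_num
  rw [e3]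
  have e4 : 24 / (10 ^ 11 * l ^ 2) + 1 / (10 ^ 11 * l ^ 2) < 625 / (10 ^ 11 * l ^ 2) := by
    rw [← add_div]
    apply div_lt_div_of_pos_right (by norm_num) (by positivity)
  linarith

theorem p_NUMP (hASY : T_ASY) : T_NUMP := by
  obtain ⟨l0, hl0, hA⟩ := hASY
  refine ⟨Real.exp l0, ?_, ?_⟩
  · have := Real.add_one_le_exp l0
    have h2 : (10 : ℝ) ≤ 10 ^ 40 := by norm_num
    linarith
  intro G m hm hG1 hG
  set l := Real.log m with hl
  have hm0 : 0 < m := (Real.exp_pos _).trans_le hm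
  have hml : m = Real.exp l := (Real.exp_log hm0).symm
  have hll : l0 ≤ l := (Real.le_log_iff_exp_le hm0).2 hm
  have hl40 : 10 ^ 40 ≤ l := hl0.trans hll
  have hl1 : 0 < l := lt_of_lt_of_le (by norm_num) hl40
  have hl10 : (10 : ℝ) ≤ l := le_trans (by norm_num) hl40
  have hy60 := hA l hll
  set y := Real.exp (l / 14) with hy
  have hy0 : 0 < y := Real.exp_pos _
  have hmy : m = y ^ 14 := by
    rw [hy, ← Real.exp_nat_mul, hml]
    congr 1
    push_cast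
    ring
  have hl60 : (1 : ℝ) ≤ l ^ 60 := one_le_pow₀ (by linarith)
  have hy1 : 1 ≤ y := hl60.trans hy60
  have hGy : G * l ^ 12 ≤ y ^ 10 := by
    have h1 : m ^ (5 / 7 : ℝ) = y ^ 10 := by
      rw [hml, hy, ← Real.exp_mul, ← Real.exp_nat_mul]
      congr 1
      push_cast
      ring
    rw [h1] at hG
    rwa [le_div_iff₀ (by positivity)] at hG
  obtain ⟨hκ0, hκ, hs⟩ := NUMP_base G m l y hl40 hy60 hG1 hGy hmy hl.symm
  obtain ⟨K, hK1, hK2, hK3⟩ := NUMP_K m l hl40 hml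
  set κ := ka (1 / (4 * l)) G m with hκd
  have hs0 : 0 ≤ Real.sqrt (G * m) := Real.sqrt_nonneg _
  have hs1 : 1 ≤ Real.sqrt (G * m) := by
    rw [Real.one_le_sqrt]
    have : 1 ≤ m := by rw [hmy]; exact one_le_pow₀ hy1
    nlinarith
  set W : ℝ := 16384 * 10 ^ 7 * l ^ 3 * Real.sqrt (G * m) with hWd
  have hW1 : 1 ≤ W := by
    have h1 : (1 : ℝ) ≤ l ^ 3 := one_le_pow₀ (by linarith)
    have h2 : 1 ≤ l ^ 3 * Real.sqrt (G * m) := one_le_mul_of_one_le_of_one_le h1 hs1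
    rw [hWd]
    nlinarith
  obtain ⟨h, hh1, hh2⟩ := NUMP_h W hW1
  set A : ℕ := ⌈10 ^ 11 * l ^ 3⌉₊ with hAd
  have hA1 : 10 ^ 11 * l ^ 3 ≤ (A : ℝ) := Nat.le_ceil _
  have hl3 : (1 : ℝ) ≤ l ^ 3 := one_le_pow₀ (by linarith)
  have hA2 : (A : ℝ) ≤ 2 * 10 ^ 11 * l ^ 3 := by
    have := Nat.ceil_lt_add_one (by positivity : 0 ≤ 10 ^ 11 * l ^ 3)
    nlinarith
  have hA4 : 4 ≤ A := by
    have : (4 : ℝ) ≤ A := by nlinarith
    exact_mod_cast this
  -- sizes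
  have hWl : W * l ^ 3 ≤ 16384 * 10 ^ 7 * y ^ 12 := by
    calc W * l ^ 3 = 16384 * 10 ^ 7 * (Real.sqrt (G * m) * l ^ 6) := by rw [hWd]; ring
      _ ≤ _ := by gcongr
  have hy2 : (10 : ℝ) ^ 40 ≤ y := by
    refine hl40.trans (le_trans ?_ hy60)
    calc l = l ^ 1 := (pow_one l).symm
      _ ≤ l ^ 60 := pow_le_pow_right₀ (by linarith) (by norm_num)
  have hZ : (2 : ℝ) ^ (h + 4) * A ≤ 10 ^ 24 * y ^ 12 := by
    calc (2 : ℝ) ^ (h + 4) * A = 8 * 2 ^ (h + 1) * A := by ring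
      _ ≤ 8 * (2 * W) * (2 * 10 ^ 11 * l ^ 3) := by gcongr
      _ = 32 * 10 ^ 11 * (W * l ^ 3) := by ring
      _ ≤ 32 * 10 ^ 11 * (16384 * 10 ^ 7 * y ^ 12) := by gcongr
      _ ≤ 10 ^ 24 * y ^ 12 := by nlinarith [pow_pos hy0 12]
  have hZm : (10 : ℝ) ^ 24 * y ^ 12 ≤ m := by
    rw [hmy]
    have h1 : (10 : ℝ) ^ 24 ≤ y ^ 2 := by
      calc (10 : ℝ) ^ 24 ≤ 10 ^ 40 := by norm_num
        _ ≤ y := hy2
        _ = y * 1 := (mul_one y).symm
        _ ≤ y * y := by gcongr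
        _ = y ^ 2 := by ring
    calc (10 : ℝ) ^ 24 * y ^ 12 ≤ y ^ 2 * y ^ 12 := by gcongr
      _ = y ^ 14 := by ring
  have hκ3 : κ ^ 3 * (l ^ 30 * y ^ 12) ≤ 576 ^ 3 := by
    calc κ ^ 3 * (l ^ 30 * y ^ 12) = (κ * (l ^ 10 * y ^ 4)) ^ 3 := by ring
      _ ≤ 576 ^ 3 := pow_le_pow_left₀ (by positivity) hκ 3
  have hTZ : κ ^ 3 * (10 ^ 24 * y ^ 12) * l ^ 30 ≤ 10 ^ 33 := by
    calc κ ^ 3 * (10 ^ 24 * y ^ 12) * l ^ 30 = 10 ^ 24 * (κ ^ 3 * (l ^ 30 * y ^ 12)) := by ring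
      _ ≤ 10 ^ 24 * 576 ^ 3 := by gcongr
      _ ≤ 10 ^ 33 := by norm_num
  have hl30 : (10 : ℝ) ^ 33 ≤ l ^ 30 := by
    calc (10 : ℝ) ^ 33 ≤ 10 ^ 40 := by norm_num
      _ ≤ l := hl40
      _ = l ^ 1 := (pow_one l).symm
      _ ≤ l ^ 30 := pow_le_pow_right₀ (by linarith) (by norm_num)
  have hTZ1 : κ ^ 3 * (10 ^ 24 * y ^ 12) ≤ 1 := by
    by_contra hcon
    have hcon := not_le.1 hcon
    have : l ^ 30 < κ ^ 3 * (10 ^ 24 * y ^ 12) * l ^ 30 := by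
      have := mul_lt_mul_of_pos_right hcon (by positivity : 0 < l ^ 30)
      linarith
    linarith
  refine ⟨h, K, A, hK1, hA4, ?_, ?_, ?_⟩
  · -- h + 1 ≤ 2 l
    have h1 : (2 : ℝ) ^ (h + 1) ≤ m := by
      have hA1' : (1 : ℝ) ≤ A := by
        have : (4 : ℝ) ≤ A := by exact_mod_cast hA4
        linarith
      calc (2 : ℝ) ^ (h + 1) ≤ 2 ^ (h + 4) := pow_le_pow_right₀ (by norm_num) (by omega)
        _ = 2 ^ (h + 4) * 1 := (mul_one _).symm
        _ ≤ 2 ^ (h + 4) * A := by gcongr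
        _ ≤ _ := hZ.trans hZm
    have h2 := Real.log_le_log (by positivity) h1
    rw [Real.log_pow, ← hl] at h2
    have h3 := Real.log_two_gt_d9
    push_cast at h2
    have h4 : (0 : ℝ) ≤ (h : ℝ) + 1 := by positivity
    nlinarith
  · -- the sum of the tails
    have e1 : (2 : ℝ) ^ (h + 1) * ((1 / (4 * l)) ^ 3 / (64 * 10 ^ 7)) =
        2 ^ (h + 1) / (4096 * 10 ^ 7 * l ^ 3) := by
      field_simp
      norm_num
    rw [e1, le_div_iff₀ (by positivity)]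
    refine le_trans (le_of_eq ?_) hh1
    rw [hWd]
    ring
  intro i hi
  have hKG : Par (1 / (4 * l)) G m K i h := by
    refine ⟨by positivity, ?_, ?_, hK2, hi, ?_, ?_, ?_⟩
    · rw [div_le_one (by positivity)]
      linarith
    · have h1 : y ≤ m := by
        rw [hmy]
        calc y = y ^ 1 := (pow_one y).symm
          _ ≤ y ^ 14 := pow_le_pow_right₀ hy1 (by norm_num)
      have h2 : (2 : ℝ) ≤ 10 ^ 40 := by norm_num
      linarith
    · -- kd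
      unfold de
      rw [← hκd]
      have e3 : (1 / (4 * l)) ^ 2 / 10 ^ 7 = 1 / (16 * 10 ^ 7 * l ^ 2) := by
        field_simp
        norm_num
      rw [e3, le_div_iff₀ (by positivity)]
      have h8 : 576 * (16 * 10 ^ 7) ≤ l ^ 8 * y ^ 4 := by
        have a1 : l ≤ l ^ 8 := by
          calc l = l ^ 1 := (pow_one l).symm
            _ ≤ l ^ 8 := pow_le_pow_right₀ (by linarith) (by norm_num)
        have a2 : (1 : ℝ) ≤ y ^ 4 := one_le_pow₀ hy1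
        have a3 : (576 : ℝ) * (16 * 10 ^ 7) ≤ 10 ^ 40 := by norm_num
        calc (576 : ℝ) * (16 * 10 ^ 7) ≤ l ^ 8 * 1 := by linarith
          _ ≤ l ^ 8 * y ^ 4 := by gcongr
      have h9 : κ * (16 * 10 ^ 7 * l ^ 2) * (l ^ 8 * y ^ 4) ≤ 1 * (l ^ 8 * y ^ 4) := by
        calc κ * (16 * 10 ^ 7 * l ^ 2) * (l ^ 8 * y ^ 4) =
              16 * 10 ^ 7 * (κ * (l ^ 10 * y ^ 4)) := by ring
          _ ≤ 16 * 10 ^ 7 * 576 := by gcongr
          _ ≤ 1 * (l ^ 8 * y ^ 4) := by linarith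
      exact le_of_mul_le_mul_right h9 (by positivity)
    · -- im
      unfold de
      have e3 : ((1 / (4 * l)) ^ 2 / 10 ^ 7) ^ 2 * (1 / (4 * l) * m) =
          m / (1024 * 10 ^ 14 * l ^ 5) := by
        field_simp
        norm_num
      rw [e3, le_div_iff₀ (by positivity)]
      have h6 : 512 * (1024 * 10 ^ 14) ≤ l ^ 6 := by
        calc (512 : ℝ) * (1024 * 10 ^ 14) ≤ 10 ^ 40 := by norm_num
          _ ≤ l := hl40
          _ = l ^ 1 := (pow_one l).symm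
          _ ≤ l ^ 6 := pow_le_pow_right₀ (by linarith) (by norm_num)
      calc 256 * (K : ℝ) * G * (1024 * 10 ^ 14 * l ^ 5)
          ≤ 256 * (2 * l) * G * (1024 * 10 ^ 14 * l ^ 5) := by gcongr
        _ = (512 * (1024 * 10 ^ 14)) * (G * l ^ 6) := by ring
        _ ≤ l ^ 6 * (G * l ^ 6) := by gcongr
        _ = G * l ^ 12 := by ring
        _ ≤ y ^ 10 := hGy
        _ ≤ y ^ 14 := pow_le_pow_right₀ hy1 (by norm_num)
        _ = m := hmy.symm
    · -- kk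
      rw [← hκd]
      have hs2 : Real.sqrt (G * m) ≤ y ^ 12 := by
        calc Real.sqrt (G * m) = Real.sqrt (G * m) * 1 := (mul_one _).symm
          _ ≤ Real.sqrt (G * m) * l ^ 6 := by
              gcongr
              exact one_le_pow₀ (by linarith)
          _ ≤ y ^ 12 := hs
      calc 24 * κ ^ 3 * Real.sqrt (G * m) ≤ 24 * κ ^ 3 * y ^ 12 := by gcongr
        _ = κ ^ 3 * (24 * y ^ 12) := by ring
        _ ≤ κ ^ 3 * (10 ^ 24 * y ^ 12) := by
            gcongr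
            norm_num
        _ ≤ 1 := hTZ1
  refine ⟨hKG, ?_⟩
  obtain ⟨R, hR1, hR2, hR3, hR4⟩ := NUMP_R A i h hA4 hi
  have hR4' : 2 * 2 ^ i * (A : ℝ) ^ R ≤ 2 ^ (h + 4) * A := by exact_mod_cast hR4
  have hX : 2 * 2 ^ i * (A : ℝ) ^ R ≤ 10 ^ 24 * y ^ 12 := hR4'.trans hZ
  have hX1 : κ ^ 3 * (2 * 2 ^ i * (A : ℝ) ^ R) ≤ κ ^ 3 * (10 ^ 24 * y ^ 12) := by gcongr
  refine ⟨R, hR1, hR3, hX.trans hZm, hX1.trans hTZ1, ?_⟩
  unfold de
  apply NUMP_last l (κ ^ 3 * (2 * 2 ^ i * (A : ℝ) ^ R)) _ A R K (1 / dlo (1 / (4 * l)) G m) κ hl40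
    _ hA1 hA2 (by positivity) _ hK3 rfl
  · -- dlo
    unfold dlo
    have e1 : 1 / (1 / (4 * l) * m / (48 * G)) = 192 * l * G / m := by
      field_simp
      norm_num
    rw [e1, div_mul_eq_mul_div, div_le_iff₀ hm0]
    calc 192 * l * G * l ^ 5 = 192 * (G * l ^ 6) := by ring
      _ ≤ 192 * (G * l ^ 12) := by
          gcongr
          · linarith
          · norm_num
      _ ≤ 192 * y ^ 10 := by gcongr
      _ ≤ 10 ^ 18 * y ^ 14 := by
          gcongr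
          · norm_num
          · norm_num
      _ = 10 ^ 18 * m := by rw [hmy]
  · -- kappa
    calc κ * l ^ 5 = κ * (l ^ 5 * 1) := by rw [mul_one]
      _ ≤ κ * (l ^ 10 * y ^ 4) := by
          gcongr
          · linarith
          · norm_num
          · exact one_le_pow₀ hy1
      _ ≤ 576 := hκ
      _ ≤ 10 ^ 18 := by norm_num
  · -- T
    calc κ ^ 3 * (2 * 2 ^ i * (A : ℝ) ^ R) * l ^ 30 ≤ κ ^ 3 * (10 ^ 24 * y ^ 12) * l ^ 30 := by
          gcongr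
      _ ≤ 10 ^ 33 := hTZ
  · -- R
    have h1 : (2 : ℝ) ^ (h + 1) ≤ m := by
      have hA1' : (1 : ℝ) ≤ A := by
        have : (4 : ℝ) ≤ A := by exact_mod_cast hA4
        linarith
      calc (2 : ℝ) ^ (h + 1) ≤ 2 ^ (h + 4) := pow_le_pow_right₀ (by norm_num) (by omega)
        _ = 2 ^ (h + 4) * 1 := (mul_one _).symm
        _ ≤ 2 ^ (h + 4) * A := by gcongr
        _ ≤ _ := hZ.trans hZm
    have h2 := Real.log_le_log (by positivity) h1
    rw [Real.log_pow, ← hl] at h2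
    have h3 := Real.log_two_gt_d9
    push_cast at h2
    have h4 : (0 : ℝ) ≤ (h : ℝ) + 1 := by positivity
    have h5 : (R : ℝ) ≤ h + 3 := by exact_mod_cast hR2
    nlinarith

end Pool.Agent.HPl
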