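import Pool.Agent.HPl.Targets

/-!
# PRF: the window sum as a second difference of a counting function
-/

set_option autoImplicit false

namespace Pool.Agent.HPl

open Finset Pool.Agent.HLow Pool.Agent.HSh

section

variable {V : Type} [Fintype V] [DecidableEq V]

/-- the coefficient of `sy a u x` in the second difference -/
noncomputable def PRF_c (a : V → V → ℝ) (pos : V → ℕ) (L t : ℤ) (x : V) : ℝ :=
  2 * (if (th a pos x : ℤ) < t then 1 else 0) - (if (th a pos x : ℤ) < t - L then 1 else 0)
    - (if (th a pos x : ℤ) < t + L then 1 else 0)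

omit [DecidableEq V] in
lemma PRF_abs (a : V → V → ℝ) (pos : V → ℕ) (L t : ℤ) (u : V) : |es a pos L t u| ≤ 1 := by
  unfold es
  split_ifs <;> simp

omit [DecidableEq V] in
lemma PRF_diff (a : V → V → ℝ) (pos : V → ℕ) (L t : ℤ) (x : V) (h1 : 1 ≤ dn a x) (hL : 0 ≤ L) :
    |es a pos L t x - PRF_c a pos L t x| ≤
      if (th a pos x : ℤ) < t + L ∧ t + L < (th a pos x : ℤ) + dn a x then 1 else 0 := by
  unfold es PRF_c wn
  have h1' : (1 : ℤ) ≤ dn a x := by exact_mod_cast h1
  rcases lt_or_ge (th a pos x : ℤ) (t - L) with h2 | h2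
  · rw [if_neg (show ¬ (t ≤ (th a pos x : ℤ) + L ∧ (th a pos x : ℤ) + dn a x ≤ t + L) by omega),
      if_pos (show (th a pos x : ℤ) < t by omega), if_pos h2,
      if_pos (show (th a pos x : ℤ) < t + L by omega)]
    split_ifs <;> norm_num
  · rw [if_neg (show ¬ (th a pos x : ℤ) < t - L by omega)]
    rcases lt_or_ge (th a pos x : ℤ) t with h3 | h3
    · rw [if_pos h3, if_pos h3, if_pos (show (th a pos x : ℤ) < t + L by omega)]
      by_cases h4 : (th a pos x : ℤ) + dn a x ≤ t + L
      · rw [if_pos ⟨by omega, h4⟩, if_neg (by omega)]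
        norm_num
      · rw [if_neg (fun h => h4 h.2), if_pos ⟨by omega, by omega⟩]
        norm_num
    · rw [if_neg (show ¬ (th a pos x : ℤ) < t by omega), if_neg (show ¬ (th a pos x : ℤ) < t by omega)]
      rcases lt_or_ge (th a pos x : ℤ) (t + L) with h5 | h5
      · rw [if_pos (show (th a pos x : ℤ) < t + L by omega)]
        by_cases h4 : (th a pos x : ℤ) + dn a x ≤ t + L
        · rw [if_pos ⟨by omega, h4⟩, if_neg (by omega)]
          norm_num
        · rw [if_neg (fun h => h4 h.2), if_pos ⟨by omega, by omega⟩]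
          norm_num
      · rw [if_neg (by omega), if_neg (show ¬ (th a pos x : ℤ) < t + L by omega), if_neg (by omega)]
        norm_num

end

theorem p_PRF : T_PRF := by
  classical
  intro V _ _ a pos D0 L t u hdg h1 hD hL
  have hsum : 2 * Ph a pos t u - Ph a pos (t - L) u - Ph a pos (t + L) u =
      ∑ x, sy a u x * PRF_c a pos L t x := by
    unfold Ph PRF_c
    rw [mul_sum, ← sum_sub_distrib, ← sum_sub_distrib]
    refine sum_congr rfl fun x _ => ?_
    split_ifs <;> ring
  have hgs : gs a pos D0 L t u - (2 * Ph a pos t u - Ph a pos (t - L) u - Ph a pos (t + L) u) =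
      ∑ x, sy a u x * (es a pos L t x - PRF_c a pos L t x) + D0 u * es a pos L t u := by
    rw [hsum]
    unfold gs
    have : ∀ x, sy a u x * (es a pos L t x - PRF_c a pos L t x) =
        sy a u x * es a pos L t x - sy a u x * PRF_c a pos L t x := fun x => by ring
    rw [sum_congr rfl fun x _ => this x, sum_sub_distrib]
    ring
  rw [hgs]
  set B : Finset V := univ.filter fun x =>
    (th a pos x : ℤ) < t + L ∧ t + L < (th a pos x : ℤ) + dn a x with hB
  have hB1 : B.card ≤ 1 := by
    rw [card_le_one]
    intro x hx y hy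
    rw [hB, mem_filter] at hx hy
    rcases lt_trichotomy (pos x) (pos y) with h | h | h
    · have := th_add (a := a) h
      omega
    · exact hdg.inj h
    · have := th_add (a := a) h
      omega
  have h2 : |∑ x, sy a u x * (es a pos L t x - PRF_c a pos L t x)| ≤ 1 := by
    calc |∑ x, sy a u x * (es a pos L t x - PRF_c a pos L t x)|
        ≤ ∑ x, |sy a u x * (es a pos L t x - PRF_c a pos L t x)| := abs_sum_le_sum_abs _ _
      _ ≤ ∑ x, if (th a pos x : ℤ) < t + L ∧ t + L < (th a pos x : ℤ) + dn a x
            then (1 : ℝ) else 0 := by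
          refine sum_le_sum fun x _ => ?_
          rw [abs_mul, abs_of_nonneg (hdg.adj.nonneg u x)]
          have h3 := PRF_diff a pos L t x (h1 x) hL
          have h4 := hdg.adj.le_one u x
          have h5 := hdg.adj.nonneg u x
          have h6 := abs_nonneg (es a pos L t x - PRF_c a pos L t x)
          nlinarith
      _ = (B.card : ℝ) := by
          rw [hB, ← sum_filter, sum_const, nsmul_eq_mul, mul_one]
      _ ≤ 1 := by exact_mod_cast hB1
  have h3 : |D0 u * es a pos L t u| ≤ D0 u := by
    rw [abs_mul, abs_of_nonneg (hD u)]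
    exact mul_le_of_le_one_right (hD u) (PRF_abs a pos L t u)
  exact (abs_add_le _ _).trans (add_le_add h2 h3)

end Pool.Agent.HPl
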