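import Mathlib
import Pool.Agent.HPl.Targets

set_option autoImplicit false
set_option linter.unusedSectionVars false

namespace Pool.Agent.HPl

open Finset Pool.Agent.HLow Pool.Agent.HSh

lemma SUM_dn {V : Type} [Fintype V] [DecidableEq V] {a : V → V → ℝ} {pos : V → ℕ} {D0 : V → ℝ}
    {G m : ℝ} (h : Dat a pos D0 G m) : ((∑ u, dn a u : ℕ) : ℝ) = 2 * m := by
  push_cast
  have h1 : ∑ u, dm a u = ∑ u, dp a u := by
    unfold dm dp
    rw [sum_comm]
  rw [sum_congr rfl fun u _ => dn_cast h.dg u, sum_add_distrib, h1, h.sum]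
  ring

lemma SUM_ka {β G m : ℝ} {K i h : ℕ} (hG : 0 < G) (hP : Par β G m K i h) : 0 < ka β G m := by
  have hm : (0 : ℝ) < m := by linarith [hP.m2]
  have hl : 0 ≤ Real.log m := Real.log_nonneg (by linarith [hP.m2])
  unfold ka R0
  refine div_pos ?_ (mul_pos hP.b0 hm)
  positivity

/-- upper bound of the sum of the commutator sums over all times -/
theorem p_SUM (h1 : T_PTS) (h2 : T_CTS) : T_SUM := by
  intro V _ _ a pos D0 β G m K i h k L hD hP hL hLm hk
  have hk0 : 0 < ka β G m := SUM_ka hD.gpos hP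
  have hL' : (1 : ℝ) ≤ (L : ℝ) := by exact_mod_cast hL
  have hL0 : (0 : ℝ) < (L : ℝ) := by linarith
  have hm : (1 : ℝ) ≤ m := hD.m1
  set q : ℝ := ka β G m ^ 3 * L with hq
  have hq0 : 0 < q := by positivity
  set s : ℝ := Real.sqrt q with hs
  have hs0 : 0 < s := Real.sqrt_pos.2 hq0
  have hs1 : s ≤ 1 := by
    rw [hs]
    exact Real.sqrt_le_one.2 hk
  have hss : s ^ 2 = q := Real.sq_sqrt hq0.le
  set D : ℝ := (2 ^ k) ^ 2 with hDD
  have hD0 : 0 < D := by positivity
  have hD4 : ((2 : ℝ) ^ k) ^ 4 = D ^ 2 := by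
    rw [hDD]
    ring
  set ν : ℝ := s / L * D with hν
  have hν0 : 0 < ν := by positivity
  set c : ℝ := (80 * s + 64 * s ^ 2) / D with hc
  have hc0 : 0 ≤ c := by positivity
  have hpt : ∀ t : ℤ, Ls a pos D0 β G m h k L t ≤ 9216 * s * L / D + cs a pos D0 L t * c := by
    intro t
    have h3 := h1 V a pos D0 β G m ν K i h k L t hD hP hν0 hL
    have e1 : 9216 * ka β G m ^ 3 * L / ν = 9216 * s * L / D := by
      have : 9216 * ka β G m ^ 3 * L = 9216 * s ^ 2 := by
        rw [hss, hq]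
        ring
      rw [this, hν]
      field_simp
    have e2 : (L : ℝ) * (80 * ν / (2 ^ k) ^ 4 + 64 * ka β G m ^ 3 / D) = c := by
      have h5 : 64 * s ^ 2 = 64 * (ka β G m ^ 3 * L) := by rw [hss]
      rw [hD4, hc, h5, hν]
      field_simp
    rw [e1, e2] at h3
    exact h3
  set I : Finset ℤ := Icc (-L) (((∑ u, dn a u : ℕ) : ℤ) + L) with hI
  have hcard : (I.card : ℝ) ≤ 5 * m := by
    have h4 : (I.card : ℤ) = ((∑ u, dn a u : ℕ) : ℤ) + L + 1 - (-L) := by
      rw [hI, Int.card_Icc, Int.toNat_of_nonneg]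
      have : (0 : ℤ) ≤ ((∑ u, dn a u : ℕ) : ℤ) := Int.natCast_nonneg _
      omega
    have h5 : (I.card : ℝ) = ((∑ u, dn a u : ℕ) : ℝ) + L + 1 - (-L) := by exact_mod_cast h4
    rw [h5, SUM_dn hD]
    linarith
  have hcts := h2 V a pos D0 β G m K i h L (-L) (((∑ u, dn a u : ℕ) : ℤ) + L) hD hP hL
  have hA : 0 ≤ 9216 * s * L / D := by positivity
  calc ∑ t ∈ I, Ls a pos D0 β G m h k L t
      ≤ ∑ t ∈ I, (9216 * s * L / D + cs a pos D0 L t * c) := sum_le_sum fun t _ => hpt t
    _ = I.card * (9216 * s * L / D) + (∑ t ∈ I, cs a pos D0 L t) * c := by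
        rw [sum_add_distrib, sum_const, nsmul_eq_mul, sum_mul]
    _ ≤ 5 * m * (9216 * s * L / D) + 6 * m * L * c :=
        add_le_add (mul_le_mul_of_nonneg_right hcard hA) (mul_le_mul_of_nonneg_right hcts hc0)
    _ ≤ 50000 * m * L * s / D := by
        rw [hc]
        have e : 5 * m * (9216 * s * L / D) + 6 * m * L * ((80 * s + 64 * s ^ 2) / D) =
            (m * L * s * (46560 + 384 * s)) / D := by ring
        rw [e]
        refine div_le_div_of_nonneg_right ?_ hD0.le
        have h6 : 0 ≤ m * L * s := by positivity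
        nlinarith

end Pool.Agent.HPl
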