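import Mathlib
import Pool.Agent.HPl.Targets
import Pool.Agent.HSh.Assemble
import Pool.Agent.HPl.PTS
import Pool.Agent.HPl.CTS
import Pool.Agent.HPl.SUM
import Pool.Agent.HPl.PRF
import Pool.Agent.HPl.LOW
import Pool.Agent.HPl.CHN
import Pool.Agent.HPl.AVG
import Pool.Agent.HPl.ERR
import Pool.Agent.HPl.KEYP
import Pool.Agent.HPl.ASY
import Pool.Agent.HPl.NUMP
import Pool.Agent.HPl.FINP
import Pool.Agent.HPl.MAINP

set_option autoImplicit false

namespace Pool.Agent.HPl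

open Pool.Agent.HSh

theorem t_AVG : T_AVG := p_AVG (p_SUM (p_PTS t_ANU p_CSF) p_CTS)

theorem t_KEYP : T_KEYP := p_KEYP HSh.t_ARC p_LOW p_CHN (p_ERR p_PRF t_AVG)

theorem t_FINP : T_FINP := p_FINP HSh.t_DAT HSh.p_LSUM t_KEYP (p_NUMP p_ASY)

theorem t_MAINP : T_MAINP := p_MAINP t_FINP

end Pool.Agent.HPl
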